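import Mathlib
import Pool.Agent.Helper198.SchB

open MvPolynomial

namespace Pool.Agent.Q79.AT

variable {k : Type} [Field k]

/-- the polynomial `X0 X1 + X2^2` -/
noncomputable def GG (k : Type) [Field k] : MvPolynomial (Fin 3) k := X 0 * X 1 + X 2 ^ 2

lemma GG_hom : (GG k).IsHomogeneous 2 :=
  ((isHomogeneous_X k _).mul (isHomogeneous_X k _)).add ((isHomogeneous_X k _).pow 2)

lemma comp_of_hom {σ : Type} {p : MvPolynomial σ k} {n : ℕ} (hp : p.IsHomogeneous n) (m : ℕ) :
    homogeneousComponent m p = if n = m then p else 0 := by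
  have h : homogeneousComponent m p = if m = n then p else 0 := homogeneousComponent_of_mem hp
  rw [h]
  by_cases e : n = m
  · simp [e]
  · rw [if_neg e, if_neg (fun h => e h.symm)]

lemma comp_mul_lt {σ : Type} {p : MvPolynomial σ k} {m : ℕ} (hp : p.IsHomogeneous m)
    (q : MvPolynomial σ k) {n : ℕ} (hn : n < m) : homogeneousComponent n (p * q) = 0 := by
  conv_lhs => rw [← sum_homogeneousComponent q]
  rw [Finset.mul_sum, map_sum]
  refine Finset.sum_eq_zero (fun i _ => ?_)
  rw [comp_of_hom (hp.mul (homogeneousComponent_isHomogeneous i q))]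
  rw [if_neg (by omega)]

/-- a polynomial with only one nonzero homogeneous component -/
lemma eq_comp {σ : Type} (p : MvPolynomial σ k) (m : ℕ)
    (h : ∀ n, n ≠ m → homogeneousComponent n p = 0) : p = homogeneousComponent m p := by
  conv_lhs => rw [← sum_homogeneousComponent p]
  by_cases hm : m ∈ Finset.range (p.totalDegree + 1)
  · rw [Finset.sum_eq_single m (fun n _ hn => h n hn) (fun h' => absurd hm h')]
  · rw [Finset.sum_eq_zero (fun n hn => h n (fun e => hm (e ▸ hn)))]
    rw [homogeneousComponent_eq_zero]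
    rw [Finset.mem_range] at hm
    omega

lemma poly_aux (F H P a b : MvPolynomial (Fin 3) k) (N : ℕ) (ha : a.IsHomogeneous 2)
    (hb : b.IsHomogeneous 2)
    (h : (a * F + b * H) * GG k ^ N =
      ∑ i ∈ Finset.range (N + 1), homogeneousComponent i P * GG k ^ (N + 1 - i)) :
    a * F + b * H = homogeneousComponent 0 P * GG k := by
  have hG : GG k ≠ 0 := by
    intro h0
    have := congrArg (coeff (Finsupp.single 2 2)) h0
    simp [GG, coeff_X_pow, MvPolynomial.coeff_mul_X'] at this
  have hterm : ∀ i ∈ Finset.range (N + 1),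
      (homogeneousComponent i P * GG k ^ (N + 1 - i)).IsHomogeneous (2 * N + 2 - i) := by
    intro i hi
    rw [Finset.mem_range] at hi
    have h1 := (homogeneousComponent_isHomogeneous i P).mul (GG_hom.pow (N + 1 - i))
    have h2 : i + 2 * (N + 1 - i) = 2 * N + 2 - i := by omega
    rw [h2] at h1
    exact h1
  have hR : ∀ n, homogeneousComponent n ((a * F + b * H) * GG k ^ N) =
      if n = 2 * N + 2 then homogeneousComponent 0 P * GG k ^ (N + 1) else 0 := by
    intro n
    have hL : n < 2 * N + 2 → homogeneousComponent n ((a * F + b * H) * GG k ^ N) = 0 := by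
      intro hn
      have e : (a * F + b * H) * GG k ^ N = (a * GG k ^ N) * F + (b * GG k ^ N) * H := by ring
      rw [e, map_add]
      have ha' := ha.mul ((GG_hom (k := k)).pow N)
      have hb' := hb.mul ((GG_hom (k := k)).pow N)
      rw [comp_mul_lt ha' F (by omega), comp_mul_lt hb' H (by omega), add_zero]
    by_cases hn : n < 2 * N + 2
    · rw [hL hn, if_neg (by omega)]
    · rw [h, map_sum]
      by_cases hn2 : n = 2 * N + 2
      · rw [if_pos hn2, Finset.sum_eq_single 0]
        · rw [comp_of_hom (hterm 0 (by simp)), if_pos (by omega)]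
          simp
        · intro i hi hi0
          rw [comp_of_hom (hterm i hi), if_neg]
          rw [Finset.mem_range] at hi
          omega
        · intro h0
          exact absurd (Finset.mem_range.2 (Nat.succ_pos _)) h0
      · rw [if_neg hn2]
        refine Finset.sum_eq_zero (fun i hi => ?_)
        rw [comp_of_hom (hterm i hi), if_neg]
        rw [Finset.mem_range] at hi
        omega
  have h3 := eq_comp ((a * F + b * H) * GG k ^ N) (2 * N + 2) (fun n hn => by
    rw [hR n, if_neg hn])
  rw [hR, if_pos rfl, pow_succ', ← mul_assoc] at h3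
  exact mul_right_cancel₀ (pow_ne_zero N hG) h3

lemma coeff_mul_X_sq_ne (F : MvPolynomial (Fin 3) k) (i : Fin 3) (d : Fin 3 →₀ ℕ) (hd : d i < 2) :
    coeff d (X i ^ 2 * F) = 0 := by
  rw [mul_comm, pow_two, ← mul_assoc, coeff_mul_X', coeff_mul_X']
  by_cases h1 : i ∈ d.support
  · rw [if_pos h1, if_neg]
    rw [Finsupp.mem_support_iff]
    simp
    omega
  · rw [if_neg h1]

lemma poly_key (F H P : MvPolynomial (Fin 3) k) (i j : Fin 3) (N : ℕ)
    (h : (X i ^ 2 * F + X j ^ 2 * H) * GG k ^ N =
      ∑ i ∈ Finset.range (N + 1), homogeneousComponent i P * GG k ^ (N + 1 - i)) :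
    X i ^ 2 * F + X j ^ 2 * H = 0 := by
  have h1 := poly_aux F H P (X i ^ 2) (X j ^ 2) N ((isHomogeneous_X k _).pow 2)
    ((isHomogeneous_X k _).pow 2) h
  have h2 : homogeneousComponent 0 P = C (coeff 0 P) := homogeneousComponent_zero P
  rw [h2] at h1
  have h3 : coeff 0 P = 0 := by
    have h4 := congrArg (coeff (Finsupp.single 0 1 + Finsupp.single 1 1)) h1
    have hdeg : ∀ i : Fin 3, (Finsupp.single 0 1 + Finsupp.single 1 1 : Fin 3 →₀ ℕ) i < 2 := by
      intro i
      fin_cases i <;> simp
    rw [coeff_add, coeff_mul_X_sq_ne F i _ (hdeg i), coeff_mul_X_sq_ne H j _ (hdeg j), add_zero,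
      coeff_C_mul, GG, coeff_add, ← one_mul (X 2 ^ 2), mul_comm (1 : MvPolynomial (Fin 3) k),
      coeff_mul_X_sq_ne 1 2 _ (hdeg 2), add_zero] at h4
    have h5 : coeff (Finsupp.single 0 1 + Finsupp.single 1 1 : Fin 3 →₀ ℕ)
        (X 0 * X 1 : MvPolynomial (Fin 3) k) = 1 := by
      rw [coeff_mul_X, coeff_X]
      simp
    rw [h5, mul_one] at h4
    exact h4.symm
  rw [h3, C_0, zero_mul] at h1
  exact h1

section main

variable {B : Type} [CommRing B] [IsDomain B] [Algebra k B]

lemma der_aeval {E : Type} [CommRing E] [Algebra k E] {σ : Type} (δ : Derivation k E E)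
    (φ : MvPolynomial σ k →ₐ[k] E) (i : σ) (w : E)
    (h1 : ∀ j, j ≠ i → δ (φ (X j)) = 0) (h2 : δ (φ (X i)) = w) (p : MvPolynomial σ k) :
    δ (φ p) = w * φ (pderiv i p) := by
  classical
  induction p using MvPolynomial.induction_on with
  | C a =>
    have e : φ (C a) = algebraMap k E a := by
      rw [← MvPolynomial.algebraMap_eq, AlgHom.commutes]
    rw [e, Derivation.map_algebraMap, pderiv_C, map_zero, mul_zero]
  | add p q hp hq => rw [map_add, map_add, map_add, map_add, hp, hq, mul_add]
  | mul_X p j hp =>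
    rw [map_mul, Derivation.leibniz, Derivation.leibniz, hp, map_add]
    simp only [smul_eq_mul, map_mul]
    by_cases hj : j = i
    · subst hj
      rw [h2, pderiv_X_self, map_one]
      ring
    · rw [h1 j hj, pderiv_X_of_ne hj]
      rw [map_zero]
      ring

variable (φ φ' : MvPolynomial (Fin 3) k →ₐ[k] B)

lemma scale_sum (g : B) (hg : ∀ i, g * φ' (X i) = φ (X i)) (P : MvPolynomial (Fin 3) k) :
    g ^ P.totalDegree * φ' P = ∑ i ∈ Finset.range (P.totalDegree + 1),
      φ (homogeneousComponent i P) * g ^ (P.totalDegree - i) := by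
  conv_lhs => rw [← sum_homogeneousComponent P]
  rw [map_sum, Finset.mul_sum]
  have key : ∀ i ∈ Finset.range (P.totalDegree + 1),
      g ^ P.totalDegree * φ' (homogeneousComponent i P) =
      φ (homogeneousComponent i P) * g ^ (P.totalDegree - i) := by
    intro i hi
    rw [Finset.mem_range] at hi
    have h1 : φ (homogeneousComponent i P) = g ^ i * φ' (homogeneousComponent i P) := by
      have e1 : φ = aeval (fun i => g * φ' (X i)) := by
        apply MvPolynomial.algHom_ext
        intro i
        rw [aeval_X, hg]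
      have e2 : φ' = aeval (fun i => φ' (X i)) := by
        apply MvPolynomial.algHom_ext
        intro i
        rw [aeval_X]
      have e3 := Pool.Agent.Helper198.Sch.aeval_scale (B := B)
        (homogeneousComponent_isHomogeneous i P) (fun i => φ' (X i)) g
      rw [← e1, ← e2] at e3
      exact e3
    rw [h1]
    have h2 : P.totalDegree = i + (P.totalDegree - i) := by omega
    conv_lhs => rw [h2, pow_add]
    ring
  have hdeg : (∑ i ∈ Finset.range (P.totalDegree + 1), homogeneousComponent i P).totalDegree =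
      P.totalDegree := by rw [sum_homogeneousComponent]
  rw [hdeg]
  exact Finset.sum_congr rfl key

theorem alg_core (h2 : (2 : B) = 0) (hφ : Function.Injective φ)
    (hg : ∀ i, φ (GG k) * φ' (X i) = φ (X i)) (δ D : Derivation k B B)
    (hδ0 : δ (φ (X 0)) = 0) (hδ1 : δ (φ (X 1)) = 0) (hδ2 : δ (φ (X 2)) = 1)
    (hD : ∀ i, ∃ q, D (φ (X i)) = φ q) (hD' : ∀ i, ∃ q, D (φ' (X i)) = φ' q) :
    δ (D (φ (X 0))) = 0 ∧ δ (D (φ (X 1))) = 0 := by
  have hGG : GG k ≠ 0 := by
    intro h0
    have := congrArg (coeff (Finsupp.single 2 2)) h0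
    simp [GG, coeff_X_pow, MvPolynomial.coeff_mul_X'] at this
  set g := φ (GG k) with hgdef
  have hg0 : g ≠ 0 := by
    rw [hgdef, Ne, map_eq_zero_iff φ hφ]
    exact hGG
  set a := φ (X 0) with ha
  set b := φ (X 1) with hb
  set c := φ (X 2) with hc
  have hgabc : g = a * b + c ^ 2 := by
    rw [hgdef, GG, map_add, map_mul, map_pow]
  obtain ⟨F, hF⟩ := hD 0
  obtain ⟨H, hH⟩ := hD 1
  obtain ⟨F', hF'⟩ := hD' 0
  obtain ⟨H', hH'⟩ := hD' 1
  rw [← ha] at hF
  rw [← hb] at hH
  have hga : g * φ' (X 0) = a := hg 0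
  have hgb : g * φ' (X 1) = b := hg 1
  have hgc : g * φ' (X 2) = c := hg 2
  have hDg : ∀ E : Derivation k B B, E g = a * E b + b * E a := by
    intro E
    rw [hgabc, map_add, Derivation.leibniz, pow_two, Derivation.leibniz]
    simp only [smul_eq_mul]
    linear_combination (c * E c) * h2
  have hδg : δ g = 0 := by
    rw [hDg, hδ0, hδ1]
    ring
  have hδa' : δ (φ' (X 0)) = 0 := by
    have h := congrArg δ hga
    rw [Derivation.leibniz, hδg, hδ0] at h
    simp only [smul_eq_mul, mul_zero, add_zero] at h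
    exact (mul_eq_zero.1 h).resolve_left hg0
  have hδb' : δ (φ' (X 1)) = 0 := by
    have h := congrArg δ hgb
    rw [Derivation.leibniz, hδg, hδ1] at h
    simp only [smul_eq_mul, mul_zero, add_zero] at h
    exact (mul_eq_zero.1 h).resolve_left hg0
  have hδc' : g * δ (φ' (X 2)) = 1 := by
    have h := congrArg δ hgc
    rw [Derivation.leibniz, hδg, hδ2] at h
    simp only [smul_eq_mul, mul_zero, add_zero] at h
    exact h
  -- the two relations
  have rel1 : g ^ 2 * D (φ' (X 0)) = c ^ 2 * D a - a ^ 2 * D b := by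
    have h := congrArg D hga
    rw [Derivation.leibniz, hDg] at h
    simp only [smul_eq_mul] at h
    have h' : g * D (φ' (X 0)) = D a - φ' (X 0) * (a * D b + b * D a) := by
      linear_combination h
    have : g ^ 2 * D (φ' (X 0)) = g * D a - (g * φ' (X 0)) * (a * D b + b * D a) := by
      linear_combination g * h'
    rw [this, hga, hgabc]
    ring
  have rel2 : g ^ 2 * D (φ' (X 1)) = c ^ 2 * D b - b ^ 2 * D a := by
    have h := congrArg D hgb
    rw [Derivation.leibniz, hDg] at h
    simp only [smul_eq_mul] at h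
    have h' : g * D (φ' (X 1)) = D b - φ' (X 1) * (a * D b + b * D a) := by
      linear_combination h
    have : g ^ 2 * D (φ' (X 1)) = g * D b - (g * φ' (X 1)) * (a * D b + b * D a) := by
      linear_combination g * h'
    rw [this, hgb, hgabc]
    ring
  have hδφ : ∀ p, δ (φ p) = φ (pderiv 2 p) := by
    intro p
    have := der_aeval δ φ 2 1 (by
      intro j hj
      fin_cases j
      · exact hδ0
      · exact hδ1
      · exact absurd rfl hj) hδ2 p
    rw [this, one_mul]
  have hδφ' : ∀ p, g * δ (φ' p) = φ' (pderiv 2 p) := by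
    intro p
    have := der_aeval δ φ' 2 (δ (φ' (X 2))) (by
      intro j hj
      fin_cases j
      · exact hδa'
      · exact hδb'
      · exact absurd rfl hj) rfl p
    rw [this, ← mul_assoc, hδc', one_mul]
  have hsq : ∀ x : B, δ (x ^ 2) = 0 := by
    intro x
    rw [pow_two, Derivation.leibniz]
    simp only [smul_eq_mul]
    linear_combination (x * δ x) * h2
  -- apply δ
  have d1 : g * φ' (pderiv 2 F') = c ^ 2 * φ (pderiv 2 F) - a ^ 2 * φ (pderiv 2 H) := by
    have h := congrArg δ rel1
    rw [hF, hH, hF'] at h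
    rw [map_sub, Derivation.leibniz, Derivation.leibniz, Derivation.leibniz, hsq, hsq, hsq,
      hδφ, hδφ] at h
    simp only [smul_eq_mul, mul_zero, add_zero] at h
    rw [← h, ← hδφ']
    ring
  have d2 : g * φ' (pderiv 2 H') = c ^ 2 * φ (pderiv 2 H) - b ^ 2 * φ (pderiv 2 F) := by
    have h := congrArg δ rel2
    rw [hF, hH, hH'] at h
    rw [map_sub, Derivation.leibniz, Derivation.leibniz, Derivation.leibniz, hsq, hsq, hsq,
      hδφ, hδφ] at h
    simp only [smul_eq_mul, mul_zero, add_zero] at h
    rw [← h, ← hδφ']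
    ring
  have step : ∀ (P U V : MvPolynomial (Fin 3) k) (i j : Fin 3),
      g * φ' P = φ (X i) ^ 2 * φ U - φ (X j) ^ 2 * φ V →
      X i ^ 2 * U + X j ^ 2 * (-V) = 0 := by
    intro P U V i j h
    apply poly_key U (-V) P i j P.totalDegree
    apply hφ
    rw [map_mul, map_pow, map_add, map_mul, map_mul, map_pow, map_pow, map_neg, map_sum,
      ← hgdef]
    have h1 := scale_sum φ φ' g hg P
    have h3 : ∀ i ∈ Finset.range (P.totalDegree + 1),
        φ (homogeneousComponent i P * GG k ^ (P.totalDegree + 1 - i)) =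
        g * (φ (homogeneousComponent i P) * g ^ (P.totalDegree - i)) := by
      intro i hi
      rw [Finset.mem_range] at hi
      rw [map_mul, map_pow, ← hgdef]
      have : P.totalDegree + 1 - i = (P.totalDegree - i) + 1 := by omega
      rw [this, pow_succ]
      ring
    rw [Finset.sum_congr rfl h3, ← Finset.mul_sum, ← h1]
    linear_combination (-(g ^ P.totalDegree)) * h
  have e1 := step _ _ _ 2 0 d1
  have e2 := step _ _ _ 2 1 d2
  have hne : (X 2 ^ 4 - X 0 ^ 2 * X 1 ^ 2 : MvPolynomial (Fin 3) k) ≠ 0 := by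
    intro h0
    have := congrArg (coeff (Finsupp.single 2 4)) h0
    have h4 : coeff (Finsupp.single 2 4) (X 0 ^ 2 * X 1 ^ 2 : MvPolynomial (Fin 3) k) = 0 :=
      coeff_mul_X_sq_ne _ 0 _ (by simp)
    rw [coeff_sub, h4] at this
    simp [coeff_X_pow] at this
  have hU : (X 2 ^ 4 - X 0 ^ 2 * X 1 ^ 2) * pderiv 2 F = 0 := by
    linear_combination (X 2 ^ 2) * e1 + (X 0 ^ 2) * e2
  have hV : (X 2 ^ 4 - X 0 ^ 2 * X 1 ^ 2) * pderiv 2 H = 0 := by
    linear_combination (X 2 ^ 2) * e2 + (X 1 ^ 2) * e1
  have hU' := (mul_eq_zero.1 hU).resolve_left hne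
  have hV' := (mul_eq_zero.1 hV).resolve_left hne
  rw [hF, hH, hδφ, hδφ, hU', hV', map_zero]
  exact ⟨rfl, rfl⟩

end main

end Pool.Agent.Q79.AT
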