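import Mathlib

/-!
Ample line bundles with a nonzero map to the tangent sheaf: definitions.
-/

open AlgebraicGeometry CategoryTheory

namespace Pool.Agent.Q79.AT

attribute [local instance] MvPolynomial.gradedAlgebra

section projective

/-- Projective `n`-space over `k`: the scheme `Proj k[x_0, ..., x_n]`, with the grading by
degree. -/
noncomputable def PSpace (n : ℕ) (k : Type) [Field k] : Scheme.{0} :=
  Proj (MvPolynomial.homogeneousSubmodule (Fin (n + 1)) k)

/-- The structure morphism of projective `n`-space. -/
noncomputable def PSpace.str (n : ℕ) (k : Type) [Field k] : PSpace n k ⟶ Spec (.of k) :=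
  Proj.toSpecZero (MvPolynomial.homogeneousSubmodule (Fin (n + 1)) k) ≫
    Spec.map (CommRingCat.ofHom
      (algebraMap k (MvPolynomial.homogeneousSubmodule (Fin (n + 1)) k 0)))

variable {k : Type} [Field k]

/-- The `k`-scheme `X` is projective: it is isomorphic to a closed subscheme of some projective
space. -/
def IsProjective {X : Scheme.{0}} (sX : X ⟶ Spec (.of k)) : Prop :=
  ∃ (n : ℕ) (i : X ⟶ PSpace n k), IsClosedImmersion i ∧ i ≫ PSpace.str n k = sX

/-- The `k`-scheme `X` is isomorphic, over `k`, to projective `n`-space. -/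
def IsoProjectiveSpace (n : ℕ) {X : Scheme.{0}} (sX : X ⟶ Spec (.of k)) : Prop :=
  ∃ e : X ≅ PSpace n k, e.hom ≫ PSpace.str n k = sX

end projective

section functions

variable {X : Scheme.{0}}

/-- The restriction of functions on `U` to a smaller open `V`. -/
noncomputable def res {U V : X.Opens} (h : V ≤ U) : Γ(X, U) →+* Γ(X, V) :=
  (X.presheaf.map (homOfLE h).op).hom

/-- The constant functions on the open `U` of the `k`-scheme `X`. -/
noncomputable def const {k : Type} [Field k] (sX : X ⟶ Spec (.of k)) (U : X.Opens) :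
    k →+* Γ(X, U) :=
  (res (le_top : U ≤ ⊤)).comp ((Scheme.ΓSpecIso (.of k)).inv ≫ sX.appTop).hom

end functions

/-- A section over the open `W` of the tangent sheaf `T_X = Der_k(O_X, O_X)` of the
`k`-scheme `X`: a `k`-derivation of the ring `O_X(U)` for every open `U` contained in `W`, these
derivations being compatible with restriction. -/
structure VectorField {k : Type} [Field k] {X : Scheme.{0}} (sX : X ⟶ Spec (.of k))
    (W : X.Opens) where
  /-- the derivation of `O_X(U)` -/
  D : ∀ U : X.Opens, U ≤ W → Γ(X, U) → Γ(X, U)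
  map_add : ∀ (U : X.Opens) (h : U ≤ W) (a b : Γ(X, U)), D U h (a + b) = D U h a + D U h b
  leibniz : ∀ (U : X.Opens) (h : U ≤ W) (a b : Γ(X, U)),
    D U h (a * b) = a * D U h b + b * D U h a
  map_const : ∀ (U : X.Opens) (h : U ≤ W) (c : k), D U h (const sX U c) = 0
  map_res : ∀ (U : X.Opens) (h : U ≤ W) (V : X.Opens) (hV : V ≤ U) (a : Γ(X, U)),
    D V (hV.trans h) (res hV a) = res hV (D U h a)

/-- A line bundle `L` on the scheme `X`, given by a cocycle: an open cover `U i`, and units
`g i j` on `U i ∩ U j` with `g i j * g j k = g i k` on `U i ∩ U j ∩ U k`. Here `L` has on `U i`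
the local frame `e_i`, and `e_j = g i j • e_i` on `U i ∩ U j`. -/
structure LineBundle (X : Scheme.{0}) where
  /-- the index set of the cover -/
  ι : Type
  /-- the opens of the cover -/
  U : ι → X.Opens
  cover : ⨆ i, U i = ⊤
  /-- the transition functions -/
  g : ∀ i j, Γ(X, U i ⊓ U j)
  isUnit : ∀ i j, IsUnit (g i j)
  cocycle : ∀ (i j l : ι) (V : X.Opens) (hij : V ≤ U i ⊓ U j) (hjl : V ≤ U j ⊓ U l)
    (hil : V ≤ U i ⊓ U l), res hij (g i j) * res hjl (g j l) = res hil (g i l)

/-- A global section of the `n`-th tensor power of the line bundle `L`: it is `s i • e_i ^ n` on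
`U i`, where `e_i` is the local frame of `L` on `U i`. -/
structure LineBundle.Section {X : Scheme.{0}} (L : LineBundle X) (n : ℕ) where
  /-- the coefficients of the section in the local frames -/
  s : ∀ i, Γ(X, L.U i)
  compat : ∀ i j, res (inf_le_left : L.U i ⊓ L.U j ≤ L.U i) (s i) =
    L.g i j ^ n * res (inf_le_right : L.U i ⊓ L.U j ≤ L.U j) (s j)

/-- The open set `X_s` where the section `s` of a power of the line bundle does not vanish. -/
noncomputable def LineBundle.Section.nonvanishing {X : Scheme.{0}} {L : LineBundle X} {n : ℕ}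
    (s : L.Section n) : X.Opens :=
  ⨆ i, X.basicOpen (s.s i)

/-- The line bundle `L` is ample: `X` is quasi-compact and every point of `X` is in an affine open
of the form `X_s`, for a global section `s` of a positive tensor power of `L`. -/
def LineBundle.IsAmple {X : Scheme.{0}} (L : LineBundle X) : Prop :=
  CompactSpace X ∧ ∀ x : X, ∃ (n : ℕ) (s : L.Section n), 0 < n ∧ x ∈ s.nonvanishing ∧
    IsAffineOpen s.nonvanishing

/-- A morphism of `O_X`-modules `φ : L ⟶ T_X` from the line bundle `L` to the tangent sheaf: it is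
given by the vector fields `v i = φ(e_i)` on `U i`, with `v j = g i j • v i` on `U i ∩ U j`. -/
structure TangentMap {k : Type} [Field k] {X : Scheme.{0}} (sX : X ⟶ Spec (.of k))
    (L : LineBundle X) where
  /-- the image of the local frame `e_i` -/
  v : ∀ i, VectorField sX (L.U i)
  compat : ∀ (i j : L.ι) (V : X.Opens) (h : V ≤ L.U i ⊓ L.U j) (a : Γ(X, V)),
    (v j).D V (h.trans inf_le_right) a = res h (L.g i j) * (v i).D V (h.trans inf_le_left) a

/-- The morphism `φ : L ⟶ T_X` is nonzero. -/
def TangentMap.IsNonzero {k : Type} [Field k] {X : Scheme.{0}} {sX : X ⟶ Spec (.of k)}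
    {L : LineBundle X} (φ : TangentMap sX L) : Prop :=
  ∃ (i : L.ι) (V : X.Opens) (h : V ≤ L.U i) (a : Γ(X, V)), (φ.v i).D V h a ≠ 0

end Pool.Agent.Q79.AT
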