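import Mathlib
import Pool.Agent.Q79.AT.Defs

open AlgebraicGeometry CategoryTheory TopologicalSpace MvPolynomial

namespace Pool.Agent.Q79.AT

section restr

variable {X : Scheme.{0}}

lemma res_res {U V W : X.Opens} (h : V ≤ U) (h' : W ≤ V) (a : Γ(X, U)) :
    res h' (res h a) = res (h'.trans h) a := by
  have := X.presheaf.map_comp (homOfLE h).op (homOfLE h').op
  exact (congrArg (fun f => f.hom a) this).symm

lemma res_self {U : X.Opens} (h : U ≤ U) (a : Γ(X, U)) : res h a = a := by
  have := X.presheaf.map_id (Opposite.op U)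
  exact congrArg (fun f => f.hom a) this

lemma res_const {k : Type} [Field k] (sX : X ⟶ Spec (.of k)) {U V : X.Opens} (h : V ≤ U) (c : k) :
    res h (const sX U c) = const sX V c := by
  unfold const
  rw [RingHom.comp_apply, RingHom.comp_apply, res_res]

lemma res_injective [IsIntegral X] {U V : X.Opens} [Nonempty V] (h : V ≤ U) :
    Function.Injective (res h) :=
  map_injective_of_isIntegral X _

theorem exists_frac [IsIntegral X] {U W : X.Opens} (hU : IsAffineOpen U) [hW0 : Nonempty W]
    (hW : W ≤ U) (s : Γ(X, W)) : ∃ r t : Γ(X, U), r ≠ 0 ∧ res hW r * s = res hW t := by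
  have hU0 : Nonempty U := ⟨⟨hW0.some.1, hW hW0.some.2⟩⟩
  have := functionField_isFractionRing_of_isAffineOpen X U hU
  obtain ⟨t, r, hr, h⟩ := IsFractionRing.div_surjective (A := Γ(X, U))
    (X.germToFunctionField W s)
  have hr0 : r ≠ 0 := nonZeroDivisors.ne_zero hr
  refine ⟨r, t, hr0, ?_⟩
  apply X.germToFunctionField_injective W
  have e : ∀ u : Γ(X, U), X.germToFunctionField W (res hW u) =
      algebraMap Γ(X, U) X.functionField u := by
    intro u
    exact X.presheaf.germ_res_apply (homOfLE hW) _ _ u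
  rw [map_mul, e, e, ← h]
  have hr1 : algebraMap Γ(X, U) X.functionField r ≠ 0 := by
    intro h0
    apply hr0
    have := IsFractionRing.injective Γ(X, U) X.functionField
    exact this (by rw [h0, map_zero])
  field_simp

end restr

section der

variable {k : Type} [Field k] {X : Scheme.{0}} (sX : X ⟶ Spec (.of k))

/-- the structure of `k`-algebra on the functions on an open -/
noncomputable abbrev alg (U : X.Opens) : Algebra k Γ(X, U) := (const sX U).toAlgebra

variable {sX}

/-- the derivation of `Γ(X, U)` given by a vector field. -/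
noncomputable def VectorField.der {W : X.Opens} (v : VectorField sX W) (U : X.Opens) (h : U ≤ W) :
    letI := alg sX U
    Derivation k Γ(X, U) Γ(X, U) :=
  letI := alg sX U
  Derivation.mk'
    { toFun := v.D U h
      map_add' := v.map_add U h
      map_smul' := by
        intro c a
        rw [Algebra.smul_def, Algebra.smul_def, v.leibniz]
        change const sX U c * _ + a * v.D U h (const sX U c) = _
        rw [v.map_const, mul_zero, add_zero]
        rfl }
    (by
      intro a b
      exact v.leibniz U h a b)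

lemma der_zero {B : Type} [CommRing B] [Algebra k B] (Δ : Derivation k B B)
    (ψ : MvPolynomial (Fin 3) k →ₐ[k] B) (h : ∀ i, Δ (ψ (MvPolynomial.X i)) = 0) (p : MvPolynomial (Fin 3) k) :
    Δ (ψ p) = 0 := by
  induction p using MvPolynomial.induction_on with
  | C a =>
    have e : ψ (C a) = algebraMap k B a := by
      rw [← MvPolynomial.algebraMap_eq, AlgHom.commutes]
    rw [e, Derivation.map_algebraMap]
  | add p q hp hq => rw [map_add, map_add, hp, hq, add_zero]
  | mul_X p j hp =>
    rw [map_mul, Derivation.leibniz, hp, h, smul_zero, smul_zero, add_zero]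

/-- A derivation of `Γ(X, W)` which vanishes on the functions on a larger affine open is zero. -/
lemma der_eq_zero [IsIntegral X] {U W : X.Opens} (hU : IsAffineOpen U) [hW0 : Nonempty W]
    (hW : W ≤ U) (Δ : letI := alg sX W; Derivation k Γ(X, W) Γ(X, W))
    (h : ∀ r : Γ(X, U), Δ (res hW r) = 0) (s : Γ(X, W)) : Δ s = 0 := by
  let := alg sX W
  obtain ⟨r, t, hr, e⟩ := exists_frac hU hW s
  have h1 := congrArg Δ e
  rw [h, Derivation.leibniz, h, smul_zero, add_zero, smul_eq_mul] at h1
  have h2 : res hW r ≠ 0 := by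
    intro h0
    apply hr
    apply res_injective hW
    rw [h0, map_zero]
  exact (mul_eq_zero.1 h1).resolve_left h2

end der

section flag

variable {k : Type} [Field k] {X : Scheme.{0}} (sX : X ⟶ Spec (.of k))

/-- Affine coordinates `y` on an affine open `U`, such that the derivations `∂_j` and `y_m ∂_j`,
`m ≠ j`, are globally defined. -/
def HasFlag : Prop :=
  ∃ (U : X.Opens) (y : Fin 3 → Γ(X, U)), IsAffineOpen U ∧ Nonempty U ∧
    (∀ s : Γ(X, U), ∃ p : MvPolynomial (Fin 3) k, s = eval₂ (const sX U) y p) ∧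
    (∀ m j : Fin 3, m ≠ j → ∃ D D' : VectorField sX ⊤,
      (∀ l, l ≠ j → D.D U le_top (y l) = 0) ∧ D.D U le_top (y j) = 1 ∧
      (∀ l, l ≠ j → D'.D U le_top (y l) = 0) ∧ D'.D U le_top (y j) = y m)

end flag

section transport

variable {k : Type} [Field k] {X Y : Scheme.{0}} {sX : X ⟶ Spec (.of k)} {sY : Y ⟶ Spec (.of k)}

/-- pull back of functions under an isomorphism -/
noncomputable def pb (e : Y ≅ X) (V : X.Opens) : Γ(X, V) ≃+* Γ(Y, e.hom ⁻¹ᵁ V) :=
  (asIso (e.hom.app V)).commRingCatIsoToRingEquiv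

lemma pb_apply (e : Y ≅ X) (V : X.Opens) (a : Γ(X, V)) : pb e V a = (e.hom.app V).hom a := rfl

lemma pb_res (e : Y ≅ X) {V V' : X.Opens} (h : V' ≤ V) (a : Γ(X, V)) :
    pb e V' (res h a) = res (fun _ hx => h hx : e.hom ⁻¹ᵁ V' ≤ e.hom ⁻¹ᵁ V) (pb e V a) := by
  have := e.hom.naturality (homOfLE h).op
  exact congrArg (fun f => f.hom a) this

lemma pb_const (e : Y ≅ X) (he : e.hom ≫ sX = sY) (V : X.Opens) (c : k) :
    pb e V (const sX V c) = const sY (e.hom ⁻¹ᵁ V) c := by
  unfold const
  rw [RingHom.comp_apply, RingHom.comp_apply, pb_res]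
  congr 1
  subst he
  rw [Scheme.Hom.comp_appTop]
  rfl

/-- transport of a vector field by an isomorphism -/
noncomputable def VectorField.transport (e : Y ≅ X) (he : e.hom ≫ sX = sY)
    (v : VectorField sY ⊤) : VectorField sX ⊤ where
  D V _ a := (pb e V).symm (v.D (e.hom ⁻¹ᵁ V) le_top (pb e V a))
  map_add V _ a b := by
    rw [_root_.map_add, v.map_add, _root_.map_add]
  leibniz V _ a b := by
    rw [_root_.map_mul, v.leibniz, _root_.map_add, _root_.map_mul, _root_.map_mul,
      RingEquiv.symm_apply_apply, RingEquiv.symm_apply_apply]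
  map_const V _ c := by
    rw [pb_const e he, v.map_const, _root_.map_zero]
  map_res V _ V' hV a := by
    apply (pb e V').injective
    rw [RingEquiv.apply_symm_apply, pb_res e hV, pb_res e hV,
      RingEquiv.apply_symm_apply]
    exact v.map_res _ _ _ _ _

theorem HasFlag.transport (e : Y ≅ X) (he : e.hom ≫ sX = sY) (h : HasFlag sY) : HasFlag sX := by
  obtain ⟨U, y, hU, hU0, hgen, hD⟩ := h
  -- the open of `X`
  let V : X.Opens := e.inv ⁻¹ᵁ U
  have hV : e.hom ⁻¹ᵁ V = U := by
    ext x
    change e.inv (e.hom x) ∈ U ↔ x ∈ U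
    have : e.inv (e.hom x) = x := by
      rw [← Scheme.Hom.comp_apply, Iso.hom_inv_id]
      rfl
    rw [this]
  have hle : e.hom ⁻¹ᵁ V ≤ U := hV.le
  have hge : U ≤ e.hom ⁻¹ᵁ V := hV.ge
  let ρ : Γ(Y, U) →+* Γ(X, V) := ((pb e V).symm : Γ(Y, e.hom ⁻¹ᵁ V) →+* Γ(X, V)).comp (res hle)
  have hρ : ∀ a, pb e V (ρ a) = res hle a := fun a => RingEquiv.apply_symm_apply _ _
  have hρs : ∀ b : Γ(X, V), ∃ a, ρ a = b := by
    intro b
    refine ⟨res hge (pb e V b), ?_⟩
    apply (pb e V).injective
    rw [hρ, res_res, res_self]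
  refine ⟨V, fun i => ρ (y i), ?_, ?_, ?_, ?_⟩
  · exact hU.preimage_of_isIso e.inv
  · obtain ⟨x, hx⟩ := hU0
    refine ⟨⟨e.hom x, ?_⟩⟩
    exact hge hx
  · intro s
    obtain ⟨a, rfl⟩ := hρs s
    obtain ⟨p, rfl⟩ := hgen a
    refine ⟨p, ?_⟩
    rw [hom_eval₂]
    have : ρ.comp (const sY U) = const sX V := by
      ext c
      apply (pb e V).injective
      rw [RingHom.comp_apply, hρ, res_const, pb_const e he]
    rw [this]
  · intro m j hmj
    obtain ⟨D, D', h1, h2, h3, h4⟩ := hD m j hmj
    have key : ∀ (v : VectorField sY ⊤) (a : Γ(Y, U)),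
        (v.transport e he).D V le_top (ρ a) = ρ (v.D U le_top a) := by
      intro v a
      change (pb e V).symm (v.D (e.hom ⁻¹ᵁ V) le_top (pb e V (ρ a))) = _
      rw [hρ, v.map_res U le_top]
      rfl
    refine ⟨D.transport e he, D'.transport e he, ?_, ?_, ?_, ?_⟩
    · intro l hl
      rw [key, h1 l hl, map_zero]
    · rw [key, h2, map_one]
    · intro l hl
      rw [key, h3 l hl, map_zero]
    · rw [key, h4]

end transport

end Pool.Agent.Q79.AT
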