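import Pool.Agent.Q79.AT.Quad
import Pool.Agent.Q79.AT.Flag

open MvPolynomial AlgebraicGeometry CategoryTheory TopologicalSpace
open Pool.Agent.Helper198.Sch

namespace Pool.Agent.Q79.AT

attribute [local instance] MvPolynomial.gradedAlgebra

section sec

variable {σ : Type} {k : Type} [Field k] {J : HI σ k}

/-- elements of the chart ring as functions on the chart -/
noncomputable def secTop (J : HI σ k) (c : σ) : Ch J c →+* Γ(V J, V.D J c) :=
  (Proj.awayToSection (qgrad J.toIdeal) (gen J c)).hom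

lemma secTop_frac (c a : σ) : secTop J c (frac J c a) = fr J c a (V.D J c) le_rfl := by
  refine (awayToSection_mk (𝒜 := qgrad J.toIdeal) (gen_mem J c) 1 (gen J a)
      (by simpa using gen_mem J a) (fun y => by rw [pow_one]; exact y.2)).trans ?_
  apply mkSec_congr
  ring

lemma secTop_bijective (c : σ) : Function.Bijective (secTop J c) :=
  bijective_awayToSection (𝒜 := qgrad J.toIdeal) (gen_mem J c) one_pos

lemma secTop_algebraMap (c : σ) (r : k) :
    secTop J c (algebraMap k (Ch J c) r) = const (V.str J) (V.D J c) r :=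
  awayToSection_const (𝒜 := qgrad J.toIdeal) (gen J c) r

/-- elements of the chart ring as functions -/
noncomputable def secHom (c : σ) (U : (V J).Opens) (hU : U ≤ V.D J c) : Ch J c →+* Γ(V J, U) :=
  (res hU).comp (secTop J c)

lemma secHom_frac (c a : σ) (U : (V J).Opens) (hU : U ≤ V.D J c) :
    secHom c U hU (frac J c a) = fr J c a U hU := by
  unfold secHom
  rw [RingHom.comp_apply, secTop_frac, res_fr]

lemma secHom_algebraMap (c : σ) (U : (V J).Opens) (hU : U ≤ V.D J c) (r : k) :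
    secHom c U hU (algebraMap k (Ch J c) r) = const (V.str J) U r := by
  unfold secHom
  rw [RingHom.comp_apply, secTop_algebraMap, res_const]

lemma secHom_surjective (c : σ) : Function.Surjective (secHom (J := J) c (V.D J c) le_rfl) := by
  intro s
  obtain ⟨x, rfl⟩ := (secTop_bijective (J := J) c).2 s
  refine ⟨x, ?_⟩
  unfold secHom
  rw [RingHom.comp_apply, res_self]

lemma secHom_injective [IsIntegral (V J)] (c : σ) (U : (V J).Opens) [Nonempty U]
    (hU : U ≤ V.D J c) : Function.Injective (secHom c U hU) :=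
  (res_injective hU).comp (secTop_bijective (J := J) c).1

lemma res_secHom (c : σ) {U U' : (V J).Opens} (hU : U ≤ V.D J c) (h : U' ≤ U) (x : Ch J c) :
    res h (secHom c U hU x) = secHom c U' (h.trans hU) x := by
  unfold secHom
  rw [RingHom.comp_apply, RingHom.comp_apply, res_res]

end sec

section flagP

variable (k : Type) [Field k]

/-- the zero ideal, defining projective space -/
noncomputable def J0 : HI (Fin 4) k := HI.ofSet ∅ (fun f hf => absurd hf (Set.notMem_empty f))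

lemma J0_toIdeal : (J0 k).toIdeal = ⊥ := Ideal.span_empty

lemma stable_J0 (j : Fin 4) : Stable (J0 k) j := by
  intro f hf
  rw [J0_toIdeal, Ideal.mem_bot] at hf
  rw [hf, map_zero]
  exact Ideal.zero_mem _

/-- A point of the chart `0`. -/
lemma nonempty_chart0 : Nonempty (V.D (J0 k) 0) := by
  have h1 : Nontrivial (Ch (J0 k) 0) := by
    let L : Ch (J0 k) 0 →ₐ[k] k := chLift (J0 k) 0 (fun _ => 1) rfl (by
      intro f hf
      rw [J0_toIdeal, Ideal.mem_bot] at hf
      rw [hf, map_zero])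
    exact L.toRingHom.domain_nontrivial
  obtain ⟨p⟩ : Nonempty (PrimeSpectrum (Ch (J0 k) 0)) := inferInstance
  exact ⟨⟨V.chart (J0 k) 0 p, (V.mem_range_chart (J0 k) 0 _).1 ⟨p, rfl⟩⟩⟩

theorem hasFlag_P : HasFlag (V.str (J0 k)) := by
  refine ⟨V.D (J0 k) 0, fun l => fr (J0 k) 0 l.succ _ le_rfl, isAffineOpen_D _ _,
    nonempty_chart0 k, ?_, ?_⟩
  · intro s
    obtain ⟨x, rfl⟩ := secHom_surjective (J := J0 k) 0 s
    obtain ⟨f, rfl⟩ := aeval_frac_surjective (J0 k) 0 x
    refine ⟨aeval (Fin.cons 1 X : Fin 4 → MvPolynomial (Fin 3) k) f, ?_⟩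
    let g1 : MvPolynomial (Fin 4) k →+* Γ(V (J0 k), V.D (J0 k) 0) :=
      (secHom (J := J0 k) 0 _ le_rfl).comp
        (aeval (frac (J0 k) 0) : MvPolynomial (Fin 4) k →ₐ[k] Ch (J0 k) 0).toRingHom
    let g2 : MvPolynomial (Fin 4) k →+* Γ(V (J0 k), V.D (J0 k) 0) :=
      (eval₂Hom (const (V.str (J0 k)) (V.D (J0 k) 0))
        (fun l : Fin 3 => fr (J0 k) 0 l.succ _ le_rfl)).comp
        (aeval (Fin.cons 1 X : Fin 4 → MvPolynomial (Fin 3) k) :
          MvPolynomial (Fin 4) k →ₐ[k] MvPolynomial (Fin 3) k).toRingHom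
    have hg : g1 = g2 := by
      apply MvPolynomial.ringHom_ext
      · intro r
        change secHom _ _ _ (aeval (frac (J0 k) 0) (C r)) =
          eval₂Hom _ _ (aeval (Fin.cons 1 X : Fin 4 → MvPolynomial (Fin 3) k) (C r))
        rw [aeval_C, aeval_C, secHom_algebraMap, MvPolynomial.algebraMap_eq, eval₂Hom_C]
      · intro a
        change secHom _ _ _ (aeval (frac (J0 k) 0) (X a)) =
          eval₂Hom _ _ (aeval (Fin.cons 1 X : Fin 4 → MvPolynomial (Fin 3) k) (X a))
        rw [aeval_X, aeval_X, secHom_frac]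
        refine Fin.cases ?_ (fun l => ?_) a
        · rw [Fin.cons_zero, map_one, fr_self]
        · rw [Fin.cons_succ, eval₂Hom_X']
    exact congrArg (fun g => g f) hg
  · intro m j hmj
    have hj : ∀ l : Fin 3, (0 : Fin 4) ≠ l.succ := fun l => (Fin.succ_ne_zero l).symm
    refine ⟨E 0 (stable_J0 k j.succ) ⊤, E m.succ (stable_J0 k j.succ) ⊤, ?_, ?_, ?_, ?_⟩
    · intro l hl
      exact E_fr_ne _ _ _ _ _ _ _ _ (hj j) (fun h => hl (Fin.succ_injective _ h))
    · rw [E_fr_self _ _ _ _ _ _ _ (hj j), fr_self]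
    · intro l hl
      exact E_fr_ne _ _ _ _ _ _ _ _ (hj j) (fun h => hl (Fin.succ_injective _ h))
    · exact E_fr_self _ _ _ _ _ _ _ (hj j)

/-- the inverse graded map -/
noncomputable def backMap : qgrad (J0 k).toIdeal →+*ᵍ homogeneousSubmodule (Fin 4) k where
  toRingHom := Ideal.Quotient.lift (J0 k).toIdeal (RingHom.id _) (by
    intro f hf
    rw [J0_toIdeal, Ideal.mem_bot] at hf
    rw [hf, map_zero])
  map_mem := by
    intro i x hx
    obtain ⟨f, hf, rfl⟩ := mem_qgrad.1 hx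
    exact hf

lemma backMap_mk (f : MvPolynomial (Fin 4) k) :
    backMap k (Ideal.Quotient.mk (J0 k).toIdeal f) = f := rfl

lemma backMap_irr : HomogeneousIdeal.irrelevant (homogeneousSubmodule (Fin 4) k) ≤
    HomogeneousIdeal.map (backMap k) (HomogeneousIdeal.irrelevant (qgrad (J0 k).toIdeal)) := by
  refine (HomogeneousIdeal.toIdeal_irrelevant_le _).2 ?_
  intro i hi f hf
  have h1 : f = backMap k (Ideal.Quotient.mk (J0 k).toIdeal f) := rfl
  rw [h1]
  exact Ideal.mem_map_of_mem _ (HomogeneousIdeal.mem_irrelevant_of_mem _ hi (mk_mem_qgrad hf))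

lemma comp1 : (renMap (J0 k) (Equiv.refl (Fin 4))).comp (backMap k) = .id _ := by
  apply GradedRingHom.ext
  intro x
  obtain ⟨f, rfl⟩ := Ideal.Quotient.mk_surjective x
  change renMap (J0 k) (Equiv.refl (Fin 4)) (backMap k (Ideal.Quotient.mk (J0 k).toIdeal f)) = _
  rw [backMap_mk, renMap_apply]
  exact congrArg (Ideal.Quotient.mk (J0 k).toIdeal) (rename_id_apply f)

lemma comp2 : (backMap k).comp (renMap (J0 k) (Equiv.refl (Fin 4))) = .id _ := by
  apply GradedRingHom.ext
  intro f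
  change backMap k (renMap (J0 k) (Equiv.refl (Fin 4)) f) = f
  rw [renMap_apply, backMap_mk]
  exact rename_id_apply f

lemma map_congr_id {A τ : Type} [CommRing A] [SetLike τ A] [AddSubgroupClass τ A]
    {𝒜 : ℕ → τ} [GradedRing 𝒜] (f : 𝒜 →+*ᵍ 𝒜) (h : f = .id 𝒜)
    (hf : HomogeneousIdeal.irrelevant 𝒜 ≤
      HomogeneousIdeal.map f (HomogeneousIdeal.irrelevant 𝒜)) :
    Proj.map f hf = 𝟙 (Proj 𝒜) := by
  subst h
  exact Proj.map_id

/-- `V(0)` is projective space. -/
noncomputable def isoP : V (J0 k) ≅ PSpace 3 k where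
  hom := emb (J0 k) (Equiv.refl (Fin 4))
  inv := Proj.map (backMap k) (backMap_irr k)
  hom_inv_id := by
    have h := Proj.map_comp (backMap k) (renMap (J0 k) (Equiv.refl (Fin 4))) (backMap_irr k)
      (renMap_irr (J0 k) (Equiv.refl (Fin 4)))
    exact h.symm.trans (map_congr_id _ (comp1 k) _)
  inv_hom_id := by
    have h := Proj.map_comp (renMap (J0 k) (Equiv.refl (Fin 4))) (backMap k)
      (renMap_irr (J0 k) (Equiv.refl (Fin 4))) (backMap_irr k)
    exact h.symm.trans (map_congr_id _ (comp2 k) _)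

lemma isoP_str : (isoP k).hom ≫ PSpace.str 3 k = V.str (J0 k) :=
  emb_str (J0 k) (Equiv.refl (Fin 4))

end flagP

section main

variable {k : Type} [Field k]

/-- functions on the charts of the quadric, in affine coordinates -/
noncomputable def phi (t : Q4) (W : (V (JQ k)).Opens) (hW : W ≤ V.D (JQ k) t.c) :
    letI := alg (V.str (JQ k)) W
    MvPolynomial (Fin 3) k →ₐ[k] Γ(V (JQ k), W) :=
  letI := alg (V.str (JQ k)) W
  { toRingHom := (secHom t.c W hW).comp (chQ_from t k : MvPolynomial (Fin 3) k →+* Ch (JQ k) t.c)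
    commutes' := by
      intro r
      change secHom t.c W hW (chQ_from t k (algebraMap k _ r)) = const (V.str (JQ k)) W r
      rw [AlgHom.commutes, secHom_algebraMap] }

lemma phi_apply (t : Q4) (W : (V (JQ k)).Opens) (hW : W ≤ V.D (JQ k) t.c)
    (p : MvPolynomial (Fin 3) k) : phi t W hW p = secHom t.c W hW (chQ_from t k p) := rfl

lemma phi_0 (t : Q4) (W : (V (JQ k)).Opens) (hW : W ≤ V.D (JQ k) t.c) :
    phi t W hW (X 0) = fr (JQ k) t.c t.d W hW := by
  rw [phi_apply, chQ_from_0, secHom_frac]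

lemma phi_1 (t : Q4) (W : (V (JQ k)).Opens) (hW : W ≤ V.D (JQ k) t.c) :
    phi t W hW (X 1) = fr (JQ k) t.c t.d' W hW := by
  rw [phi_apply, chQ_from_1, secHom_frac]

lemma phi_2 (t : Q4) (W : (V (JQ k)).Opens) (hW : W ≤ V.D (JQ k) t.c) :
    phi t W hW (X 2) = fr (JQ k) t.c 4 W hW := by
  rw [phi_apply, chQ_from_2, secHom_frac]

lemma phi_GG [CharP k 2] (t : Q4) (W : (V (JQ k)).Opens) (hW : W ≤ V.D (JQ k) t.c) :
    phi t W hW (GG k) = fr (JQ k) t.c t.c' W hW := by
  have h1 : chQ_from t k (GG k) = - frac (JQ k) t.c t.c' := by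
    rw [frac_c', GG, map_add, map_mul, map_pow, chQ_from_0, chQ_from_1, chQ_from_2]
    ring
  have h2 : (2 : Ch (JQ k) t.c) = 0 := by
    have : (2 : k) = 0 := CharP.cast_eq_zero k 2
    rw [← map_ofNat (algebraMap k (Ch (JQ k) t.c)) 2, this, map_zero]
  have h3 : - frac (JQ k) t.c t.c' = frac (JQ k) t.c t.c' := by
    linear_combination (-(frac (JQ k) t.c t.c')) * h2
  rw [phi_apply, h1, h3, secHom_frac]

lemma phi_injective [IsIntegral (V (JQ k))] (t : Q4) (W : (V (JQ k)).Opens) [Nonempty W]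
    (hW : W ≤ V.D (JQ k) t.c) : Function.Injective (phi t W hW) := by
  have h1 := secHom_injective (J := JQ k) t.c W hW
  have h2 : Function.Injective (chQ_from t k) := (chQ_equiv t k).symm.injective
  exact h1.comp h2

/-- Vector fields preserve the functions on a chart. -/
lemma exists_phi (t : Q4) (W : (V (JQ k)).Opens) (hW : W ≤ V.D (JQ k) t.c)
    (v : VectorField (V.str (JQ k)) ⊤) (p : MvPolynomial (Fin 3) k) :
    ∃ q, v.D W le_top (phi t W hW p) = phi t W hW q := by
  have h1 : phi t W hW p = res hW (secHom t.c _ le_rfl (chQ_from t k p)) := by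
    rw [phi_apply, res_secHom]
  obtain ⟨x, hx⟩ := secHom_surjective (J := JQ k) t.c
    (v.D _ le_top (secHom t.c _ le_rfl (chQ_from t k p)))
  refine ⟨chQ_to t k x, ?_⟩
  have h2 : chQ_from t k (chQ_to t k x) = x := (chQ_equiv t k).symm_apply_apply x
  rw [h1, phi_apply, h2, v.map_res _ le_top, ← hx, res_secHom]

lemma nonempty_D (t : Q4) : Nonempty (V.D (JQ k) t.c) := by
  obtain ⟨p⟩ : Nonempty (PrimeSpectrum (Ch (JQ k) t.c)) := inferInstance
  exact ⟨⟨V.chart (JQ k) t.c p, (V.mem_range_chart (JQ k) t.c _).1 ⟨p, rfl⟩⟩⟩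

theorem not_hasFlag [CharP k 2] : ¬ HasFlag (V.str (JQ k)) := by
  rintro ⟨U, y, hU, hU0, hgen, hD⟩
  have hint : IsIntegral (V (JQ k)) := isIntegral_VQ
  let W : (V (JQ k)).Opens := V.D (JQ k) 0 ⊓ V.D (JQ k) 1 ⊓ U
  have hW0 : W ≤ V.D (JQ k) (ch4 0).c := inf_le_left.trans inf_le_left
  have hW1 : W ≤ V.D (JQ k) (ch4 1).c := inf_le_left.trans inf_le_right
  have hWU : W ≤ U := inf_le_right
  have hWne : Nonempty W := by
    have hirr : IrreducibleSpace (V (JQ k)) := inferInstance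
    obtain ⟨x0⟩ := nonempty_D (k := k) (ch4 0)
    obtain ⟨x1⟩ := nonempty_D (k := k) (ch4 1)
    obtain ⟨x2⟩ := hU0
    obtain ⟨z, hz⟩ := nonempty_preirreducible_inter (X := V (JQ k))
      (V.D (JQ k) (ch4 0).c).isOpen (V.D (JQ k) (ch4 1).c).isOpen ⟨x0.1, x0.2⟩ ⟨x1.1, x1.2⟩
    obtain ⟨w, hw⟩ := nonempty_preirreducible_inter (X := V (JQ k))
      (V.D (JQ k) (ch4 0).c ⊓ V.D (JQ k) (ch4 1).c).isOpen U.isOpen ⟨z, hz⟩ ⟨x2.1, x2.2⟩
    exact ⟨⟨w, hw⟩⟩
  let := alg (V.str (JQ k)) W
  have h2 : (2 : Γ(V (JQ k), W)) = 0 := by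
    have : (2 : k) = 0 := CharP.cast_eq_zero k 2
    rw [← map_ofNat (algebraMap k (Γ(V (JQ k), W))) 2, this, map_zero]
  let φ := phi (ch4 0) W hW0
  let φ' := phi (ch4 1) W hW1
  let δv : VectorField (V.str (JQ k)) ⊤ := E 0 (stable_JQ (k := k)) ⊤
  let δ := δv.der W le_top
  have hδ0 : δ (φ (X 0)) = 0 := by
    change δv.D W le_top (phi (ch4 0) W hW0 (X 0)) = 0
    rw [phi_0]
    exact E_fr_ne _ _ _ _ _ _ _ _ (by decide) (by decide)
  have hδ1 : δ (φ (X 1)) = 0 := by
    change δv.D W le_top (phi (ch4 0) W hW0 (X 1)) = 0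
    rw [phi_1]
    exact E_fr_ne _ _ _ _ _ _ _ _ (by decide) (by decide)
  have hδ2 : δ (φ (X 2)) = 1 := by
    change δv.D W le_top (phi (ch4 0) W hW0 (X 2)) = 1
    rw [phi_2]
    refine (E_fr_self _ _ _ _ _ _ _ (by decide)).trans ?_
    exact fr_self _ _ _
  have hg : ∀ i, φ (GG k) * φ' (X i) = φ (X i) := by
    have e : φ (GG k) = fr (JQ k) 0 1 W hW0 := phi_GG (ch4 0) W hW0
    intro i
    rw [e]
    fin_cases i
    · change _ * phi (ch4 1) W hW1 (X 0) = phi (ch4 0) W hW0 (X 0)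
      rw [phi_0, phi_0]
      exact fr_mul _ _ _ _ _ _
    · change _ * phi (ch4 1) W hW1 (X 1) = phi (ch4 0) W hW0 (X 1)
      rw [phi_1, phi_1]
      exact fr_mul _ _ _ _ _ _
    · change _ * phi (ch4 1) W hW1 (X 2) = phi (ch4 0) W hW0 (X 2)
      rw [phi_2, phi_2]
      exact fr_mul _ _ _ _ _ _
  -- the main property of vector fields
  have core : ∀ v : VectorField (V.str (JQ k)) ⊤, ∃ f : Γ(V (JQ k), W),
      ∀ s, v.D W le_top (δv.D W le_top s) - δv.D W le_top (v.D W le_top s) =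
        f * δv.D W le_top s := by
    intro v
    let D := v.der W le_top
    obtain ⟨c0, c1⟩ := alg_core φ φ' h2 (phi_injective (ch4 0) W hW0) hg δ D hδ0 hδ1 hδ2
      (fun i => exists_phi (ch4 0) W hW0 v (X i)) (fun i => exists_phi (ch4 1) W hW1 v (X i))
    let f := ⁅D, δ⁆ (φ (X 2))
    let Δ : Derivation k Γ(V (JQ k), W) Γ(V (JQ k), W) := ⁅D, δ⁆ - f • δ
    have hΔ : ∀ p, Δ (φ p) = 0 := by
      apply der_zero
      intro i
      have e1 : ∀ s, Δ s = D (δ s) - δ (D s) - f * δ s := by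
        intro s
        rfl
      fin_cases i
      · change Δ (φ (X 0)) = 0
        rw [e1, hδ0, c0, map_zero]
        ring
      · change Δ (φ (X 1)) = 0
        rw [e1, hδ1, c1, map_zero]
        ring
      · change Δ (φ (X 2)) = 0
        have hf : f = D (δ (φ (X 2))) - δ (D (φ (X 2))) := Derivation.commutator_apply _
        rw [e1, hf, hδ2]
        ring
    have hΔ0 := der_eq_zero (isAffineOpen_D (JQ k) (ch4 0).c) hW0 Δ (by
      intro r
      obtain ⟨x, rfl⟩ := secHom_surjective (J := JQ k) (ch4 0).c r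
      have h3 : chQ_from (ch4 0) k (chQ_to (ch4 0) k x) = x :=
        (chQ_equiv (ch4 0) k).symm_apply_apply x
      have h4 := hΔ (chQ_to (ch4 0) k x)
      rw [res_secHom]
      change Δ (secHom (ch4 0).c W hW0 (chQ_from (ch4 0) k (chQ_to (ch4 0) k x))) = 0 at h4
      rw [h3] at h4
      exact h4)
    refine ⟨f, fun s => ?_⟩
    have h5 : D (δ s) - δ (D s) - f * δ s = 0 := hΔ0 s
    exact sub_eq_zero.1 h5
  -- derivations are determined by the coordinates `y`
  have ext_y : ∀ Δ : Derivation k Γ(V (JQ k), W) Γ(V (JQ k), W),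
      (∀ l, Δ (res hWU (y l)) = 0) → ∀ s, Δ s = 0 := by
    intro Δ hΔ
    apply der_eq_zero hU hWU Δ
    intro r
    obtain ⟨p, rfl⟩ := hgen r
    have e : res hWU (eval₂ (const (V.str (JQ k)) U) y p) =
        aeval (R := k) (fun l => res hWU (y l)) p := by
      have e2 : (res hWU).comp (const (V.str (JQ k)) U) = const (V.str (JQ k)) W := by
        ext c
        exact res_const (V.str (JQ k)) hWU c
      rw [hom_eval₂, aeval_def, e2]
      rfl
    rw [e]
    apply der_zero
    intro i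
    rw [aeval_X]
    exact hΔ i
  have hm : ∃ m, δ (res hWU (y m)) ≠ 0 := by
    by_contra hcon
    push Not at hcon
    have h3 := ext_y δ hcon (φ (X 2))
    rw [hδ2] at h3
    have : Nontrivial Γ(V (JQ k), W) := inferInstance
    exact one_ne_zero h3
  obtain ⟨m, hm⟩ := hm
  obtain ⟨j, hj⟩ : ∃ j : Fin 3, m ≠ j := by
    fin_cases m
    · exact ⟨1, by decide⟩
    · exact ⟨0, by decide⟩
    · exact ⟨0, by decide⟩
  obtain ⟨D, D', hD1, hD2, hD3, hD4⟩ := hD m j hj
  have r1 : ∀ l, l ≠ j → D.D W le_top (res hWU (y l)) = 0 := by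
    intro l hl
    rw [D.map_res U le_top, hD1 l hl, map_zero]
  have r2 : D.D W le_top (res hWU (y j)) = 1 := by
    rw [D.map_res U le_top, hD2, map_one]
  have r3 : ∀ l, l ≠ j → D'.D W le_top (res hWU (y l)) = 0 := by
    intro l hl
    rw [D'.map_res U le_top, hD3 l hl, map_zero]
  have r4 : D'.D W le_top (res hWU (y j)) = res hWU (y m) := by
    rw [D'.map_res U le_top, hD4]
  have hprop : ∀ s, D'.D W le_top s = res hWU (y m) * D.D W le_top s := by
    intro s
    have h3 := ext_y (D'.der W le_top - res hWU (y m) • D.der W le_top) (by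
      intro l
      change D'.D W le_top (res hWU (y l)) - res hWU (y m) * D.D W le_top (res hWU (y l)) = 0
      by_cases hl : l = j
      · subst hl
        rw [r2, r4]
        ring
      · rw [r1 l hl, r3 l hl]
        ring) s
    exact sub_eq_zero.1 h3
  obtain ⟨f, hf⟩ := core D
  obtain ⟨f', hf'⟩ := core D'
  have z0 : δv.D W le_top 0 = 0 := map_zero δ
  have z1 : δv.D W le_top 1 = 0 := Derivation.map_one_eq_zero δ
  have a1 := hf (res hWU (y m))
  have a2 := hf' (res hWU (y m))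
  have a3 := hf (res hWU (y j))
  have a4 := hf' (res hWU (y j))
  rw [r1 m hj, z0] at a1
  rw [r3 m hj, z0, hprop] at a2
  rw [r2, z1] at a3
  rw [r4, hprop] at a4
  have hm' : δv.D W le_top (res hWU (y m)) ≠ 0 := hm
  have hff : f' = res hWU (y m) * f := by
    apply mul_right_cancel₀ hm'
    linear_combination (res hWU (y m)) * a1 - a2
  apply hm'
  rw [hff] at a4
  linear_combination (res hWU (y m)) * a3 - a4

theorem not_iso [CharP k 2] : ¬ IsoProjectiveSpace 3 (V.str (JQ k)) := by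
  rintro ⟨e, he⟩
  apply not_hasFlag (k := k)
  refine HasFlag.transport (isoP k ≪≫ e.symm) ?_ (hasFlag_P k)
  rw [Iso.trans_hom, Iso.symm_hom, Category.assoc, ← he, Iso.inv_hom_id_assoc, isoP_str]

theorem tmap_nonzero [CharP k 2] : (tmap (stable_JQ (k := k))).IsNonzero := by
  refine ⟨(0 : Fin 5), V.D (JQ k) 0, le_rfl, fr (JQ k) 0 4 _ le_rfl, ?_⟩
  have hint : IsIntegral (V (JQ k)) := isIntegral_VQ
  have h1 : ((tmap (stable_JQ (k := k))).v (0 : Fin 5)).D (V.D (JQ k) 0) le_rfl
      (fr (JQ k) 0 4 _ le_rfl) = 1 :=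
    (E_fr_self _ _ _ _ _ _ _ (by decide)).trans (fr_self _ _ _)
  rw [h1]
  have : Nonempty (V.D (JQ k) 0) := nonempty_D (k := k) (ch4 0)
  have : Nontrivial Γ(V (JQ k), V.D (JQ k) 0) := inferInstance
  exact one_ne_zero

end main

end Pool.Agent.Q79.AT
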