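import Mathlib
import Pool.Agent.Q79.AT.Defs

open AlgebraicGeometry CategoryTheory TopologicalSpace TensorProduct

namespace Pool.Agent.Q79.AT

section loc

variable {k A : Type} [Field k] [CommRing A] [Algebra k A]

theorem exists_extend (M : Submonoid A) (D : Derivation k A A) :
    ∃ D' : Derivation ℤ (Localization M) (Localization M),
      ∀ p : A, D' (algebraMap A (Localization M) p) = algebraMap A (Localization M) (D p) := by
  have := Algebra.FormallyEtale.of_isLocalization (Rₘ := Localization M) M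
  let D1 : Derivation k A (Localization M) := (Algebra.linearMap A (Localization M)).compDer D
  let l1 : Ω[A⁄k] →ₗ[A] (Localization M) := D1.liftKaehlerDifferential
  let l2 : Ω[Localization M⁄k] →ₗ[Localization M] (Localization M) :=
    (l1.liftBaseChange (Localization M)) ∘ₗ
    (KaehlerDifferential.tensorKaehlerEquivOfFormallyEtale k A (Localization M)).symm.toLinearMap
  refine ⟨(l2.compDer (KaehlerDifferential.D k (Localization M))).restrictScalars ℤ, fun p => ?_⟩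
  change l2 (KaehlerDifferential.D k (Localization M) (algebraMap A (Localization M) p)) = _
  change (l1.liftBaseChange (Localization M))
    ((KaehlerDifferential.tensorKaehlerEquivOfFormallyEtale k A (Localization M)).symm
    (KaehlerDifferential.D k (Localization M) (algebraMap A (Localization M) p))) = _
  rw [KaehlerDifferential.tensorKaehlerEquivOfFormallyEtale_symm_D_algebraMap,
    LinearMap.liftBaseChange_tmul, one_smul, Derivation.liftKaehlerDifferential_comp_D]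
  rfl

/-- the extension of a derivation to a localization -/
noncomputable def locDer (D : Derivation k A A) (M : Submonoid A) :
    Derivation ℤ (Localization M) (Localization M) :=
  Classical.choose (exists_extend M D)

lemma locDer_algebraMap (D : Derivation k A A) (M : Submonoid A) (p : A) :
    locDer D M (algebraMap A (Localization M) p) = algebraMap A (Localization M) (D p) :=
  Classical.choose_spec (exists_extend M D) p

lemma locDer_mk (D : Derivation k A A) (M : Submonoid A) (a : A) (s : M) :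
    locDer D M (Localization.mk a s) = Localization.mk (D a * s - a * D s) (s * s) := by
  have h1 : algebraMap A (Localization M) s * Localization.mk a s =
      algebraMap A (Localization M) a := by
    rw [← Localization.mk_one_eq_algebraMap, ← Localization.mk_one_eq_algebraMap,
      Localization.mk_mul, Localization.mk_eq_mk_iff, Localization.r_iff_exists]
    exact ⟨1, by simp⟩
  have hu : IsUnit (algebraMap A (Localization M) (s : A)) := IsLocalization.map_units _ s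
  have h2 := congrArg (locDer D M) h1
  rw [Derivation.leibniz, locDer_algebraMap, locDer_algebraMap] at h2
  simp only [smul_eq_mul] at h2
  have h3 : algebraMap A (Localization M) (s : A) * (algebraMap A (Localization M) (s : A) *
      Localization.mk (D a * s - a * D s) (s * s)) =
      algebraMap A (Localization M) (D a * s - a * D s) := by
    rw [← Localization.mk_one_eq_algebraMap, ← Localization.mk_one_eq_algebraMap,
      Localization.mk_mul, Localization.mk_mul, Localization.mk_eq_mk_iff,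
      Localization.r_iff_exists]
    exact ⟨1, by simp; ring⟩
  apply hu.mul_left_cancel
  apply hu.mul_left_cancel
  rw [h3, map_sub, map_mul, map_mul]
  rw [← h1]
  linear_combination algebraMap A (Localization M) (s : A) * h2

end loc

section hl

variable {k A : Type} [Field k] [CommRing A] [Algebra k A]
  (𝒜 : ℕ → Submodule k A) [GradedAlgebra 𝒜] (D : Derivation k A A)
  (hD : ∀ n, ∀ a ∈ 𝒜 n, D a ∈ 𝒜 n) (P : Submonoid A)

/-- the derivative of a homogeneous fraction -/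
def derNum (hD : ∀ n, ∀ a ∈ 𝒜 n, D a ∈ 𝒜 n) (c : HomogeneousLocalization.NumDenSameDeg 𝒜 P) :
    HomogeneousLocalization.NumDenSameDeg 𝒜 P where
  deg := c.deg + c.deg
  num := ⟨D c.num * c.den - c.num * D c.den,
    sub_mem (SetLike.mul_mem_graded (hD _ _ c.num.2) c.den.2)
      (SetLike.mul_mem_graded c.num.2 (hD _ _ c.den.2))⟩
  den := ⟨c.den * c.den, SetLike.mul_mem_graded c.den.2 c.den.2⟩
  den_mem := P.mul_mem c.den_mem c.den_mem

lemma val_derNum (c : HomogeneousLocalization.NumDenSameDeg 𝒜 P) :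
    (HomogeneousLocalization.mk (derNum 𝒜 D P hD c)).val =
      locDer D P (HomogeneousLocalization.mk c).val := by
  rw [HomogeneousLocalization.val_mk, HomogeneousLocalization.val_mk, locDer_mk]
  rfl

include hD in
lemma exists_hl (x : HomogeneousLocalization 𝒜 P) :
    ∃ y : HomogeneousLocalization 𝒜 P, y.val = locDer D P x.val := by
  obtain ⟨c, rfl⟩ := HomogeneousLocalization.mk_surjective x
  exact ⟨_, val_derNum 𝒜 D hD P c⟩

/-- the derivation of the degree zero part of a localization -/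
noncomputable def hlDer (x : HomogeneousLocalization 𝒜 P) : HomogeneousLocalization 𝒜 P :=
  Classical.choose (exists_hl 𝒜 D hD P x)

lemma val_hlDer (x : HomogeneousLocalization 𝒜 P) :
    (hlDer 𝒜 D hD P x).val = locDer D P x.val :=
  Classical.choose_spec (exists_hl 𝒜 D hD P x)

lemma hlDer_mk (c : HomogeneousLocalization.NumDenSameDeg 𝒜 P) :
    hlDer 𝒜 D hD P (HomogeneousLocalization.mk c) =
      HomogeneousLocalization.mk (derNum 𝒜 D P hD c) := by
  apply HomogeneousLocalization.val_injective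
  rw [val_hlDer, val_derNum]

lemma hlDer_add (x y : HomogeneousLocalization 𝒜 P) :
    hlDer 𝒜 D hD P (x + y) = hlDer 𝒜 D hD P x + hlDer 𝒜 D hD P y := by
  apply HomogeneousLocalization.val_injective
  rw [val_hlDer, HomogeneousLocalization.val_add, HomogeneousLocalization.val_add, map_add,
    val_hlDer, val_hlDer]

lemma hlDer_mul (x y : HomogeneousLocalization 𝒜 P) :
    hlDer 𝒜 D hD P (x * y) = x * hlDer 𝒜 D hD P y + y * hlDer 𝒜 D hD P x := by
  apply HomogeneousLocalization.val_injective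
  rw [val_hlDer, HomogeneousLocalization.val_mul, HomogeneousLocalization.val_add,
    HomogeneousLocalization.val_mul, HomogeneousLocalization.val_mul, Derivation.leibniz,
    val_hlDer, val_hlDer]
  rfl

/-- the constant `c` as a homogeneous fraction -/
def cnum (c : k) : HomogeneousLocalization.NumDenSameDeg 𝒜 P where
  deg := 0
  num := ⟨algebraMap k A c, SetLike.algebraMap_mem_graded 𝒜 c⟩
  den := ⟨1, SetLike.one_mem_graded 𝒜⟩
  den_mem := P.one_mem

lemma hlDer_const (c : k) :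
    hlDer 𝒜 D hD P (HomogeneousLocalization.mk (cnum 𝒜 P c)) = 0 := by
  apply HomogeneousLocalization.val_injective
  rw [hlDer_mk, HomogeneousLocalization.val_mk, HomogeneousLocalization.val_zero]
  have : ((derNum 𝒜 D P hD (cnum 𝒜 P c)).num : A) = 0 := by
    change D (algebraMap k A c) * 1 - algebraMap k A c * D 1 = 0
    rw [Derivation.map_algebraMap, Derivation.map_one_eq_zero]
    ring
  rw [this]
  exact Localization.mk_zero _

end hl

section sections

variable {k A : Type} [Field k] [CommRing A] [Algebra k A]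
  (𝒜 : ℕ → Submodule k A) [GradedAlgebra 𝒜] (D : Derivation k A A)
  (hD : ∀ n, ∀ a ∈ 𝒜 n, D a ∈ 𝒜 n)

set_option backward.isDefEq.respectTransparency.types false in
/-- the value of a function on `U` at the point `x`, an element of the local ring at `x`. -/
noncomputable def ev {U : (Proj 𝒜).Opens} (s : Γ(Proj 𝒜, U)) (x : U) :
    HomogeneousLocalization.AtPrime 𝒜 x.1.asHomogeneousIdeal.toIdeal :=
  s.1 x

variable {𝒜} in
lemma ev_ext {U : (Proj 𝒜).Opens} {s t : Γ(Proj 𝒜, U)} (h : ∀ x, ev 𝒜 s x = ev 𝒜 t x) :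
    s = t := Subtype.ext (funext h)

variable {𝒜} in
lemma ev_res {U V : (Proj 𝒜).Opens} (h : V ≤ U) (s : Γ(Proj 𝒜, U)) (x : V) :
    ev 𝒜 (res h s) x = ev 𝒜 s ⟨x.1, h x.2⟩ := rfl

variable {𝒜} in
lemma ev_add {U : (Proj 𝒜).Opens} (s t : Γ(Proj 𝒜, U)) (x : U) :
    ev 𝒜 (s + t) x = ev 𝒜 s x + ev 𝒜 t x := rfl

variable {𝒜} in
lemma ev_mul {U : (Proj 𝒜).Opens} (s t : Γ(Proj 𝒜, U)) (x : U) :
    ev 𝒜 (s * t) x = ev 𝒜 s x * ev 𝒜 t x := rfl

set_option backward.isDefEq.respectTransparency.types false in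
/-- the derivation of the ring of functions on `U` -/
noncomputable def secDer (U : (Proj 𝒜).Opens) (s : Γ(Proj 𝒜, U)) : Γ(Proj 𝒜, U) :=
  ⟨fun x => hlDer 𝒜 D hD _ (s.1 x), by
    intro x
    obtain ⟨V, hx, i, j, a, b, hb, h⟩ := s.2 x
    refine ⟨V, hx, i, j + j, ⟨D a * b - a * D b,
      sub_mem (SetLike.mul_mem_graded (hD _ _ a.2) b.2)
      (SetLike.mul_mem_graded a.2 (hD _ _ b.2))⟩, ⟨b * b, SetLike.mul_mem_graded b.2 b.2⟩,
      fun y => ?_, fun y => ?_⟩
    · exact y.1.asHomogeneousIdeal.toIdeal.primeCompl.mul_mem (hb y) (hb y)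
    · refine (congrArg (hlDer 𝒜 D hD _) (h y)).trans ?_
      rw [hlDer_mk]
      rfl⟩

end sections

section sections

variable {k A : Type} [Field k] [CommRing A] [Algebra k A]
  (𝒜 : ℕ → Submodule k A) [GradedAlgebra 𝒜]

/-- structure map of Proj -/
noncomputable def pstr : Proj 𝒜 ⟶ Spec (.of k) :=
  Proj.toSpecZero 𝒜 ≫ Spec.map (CommRingCat.ofHom (algebraMap k (𝒜 0)))

set_option backward.isDefEq.respectTransparency.types false in
lemma top_eq : (Scheme.ΓSpecIso (.of (𝒜 0))).inv ≫ (Proj.toSpecZero 𝒜).appTop =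
    CommRingCat.ofHom (HomogeneousLocalization.fromZeroRingHom 𝒜 (Submonoid.powers (1 : A))) ≫
      Proj.awayToSection 𝒜 1 ≫
      (Proj 𝒜).presheaf.map (eqToHom (Proj.basicOpen_one 𝒜).symm).op := by
  rw [Proj.toSpecZero]
  simp only [Scheme.Hom.comp_appTop]
  have h := Proj.basicOpenToSpec_app_top 𝒜 1
  have h' : (Proj.basicOpenToSpec 𝒜 1).appTop = (Scheme.ΓSpecIso _).hom ≫ Proj.awayToSection 𝒜 1 ≫
      (Proj.basicOpen 𝒜 1).topIso.inv := h
  rw [h']
  simp
  congr 2
  have hh : Scheme.Hom.appTop (Proj 𝒜).topIso.inv ≫ Scheme.Hom.appTop (Proj 𝒜).topIso.hom =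
      𝟙 _ := by
    rw [← Scheme.Hom.comp_appTop, Iso.hom_inv_id]
    rfl
  have hh2 : Scheme.Hom.appTop (Proj 𝒜).topIso.hom ≫ Scheme.Hom.appTop (Proj 𝒜).topIso.inv =
      𝟙 _ := by
    rw [← Scheme.Hom.comp_appTop, Iso.inv_hom_id]
    rfl
  have : IsIso (Scheme.Hom.appTop (Proj 𝒜).topIso.hom) := ⟨_, hh2, hh⟩
  rw [← cancel_mono (Scheme.Hom.appTop (Proj 𝒜).topIso.hom)]
  simp only [Category.assoc]
  rw [hh]
  simp [Scheme.isoOfEq_inv]
  exact ((Proj 𝒜).presheaf.map_comp _ _).symm.trans ((Proj 𝒜).presheaf.map_comp _ _)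

set_option backward.isDefEq.respectTransparency.types false in
lemma const_eq (U : (Proj 𝒜).Opens) (c : k) :
    const (pstr 𝒜) U c = res (le_top : U ≤ ⊤) ((Proj 𝒜).presheaf.map
      (eqToHom (Proj.basicOpen_one 𝒜).symm).op (Proj.awayToSection 𝒜 1
        (HomogeneousLocalization.fromZeroRingHom 𝒜 (Submonoid.powers (1 : A))
          (algebraMap k (𝒜 0) c)))) := by
  unfold const pstr
  rw [Scheme.Hom.comp_appTop, ← Category.assoc, ← Scheme.ΓSpecIso_inv_naturality, Category.assoc,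
    top_eq]
  rfl

set_option backward.isDefEq.respectTransparency.types false in
lemma ev_const (U : (Proj 𝒜).Opens) (c : k) (x : U) :
    ev 𝒜 (const (pstr 𝒜) U c) x = HomogeneousLocalization.mk (cnum 𝒜 _ c) := by
  rw [const_eq]
  rfl

end sections

section vf

variable {k A : Type} [Field k] [CommRing A] [Algebra k A]
  (𝒜 : ℕ → Submodule k A) [GradedAlgebra 𝒜]

set_option backward.isDefEq.respectTransparency.types false in
lemma ev_secDer (D : Derivation k A A) (hD : ∀ n, ∀ a ∈ 𝒜 n, D a ∈ 𝒜 n)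
    {U : (Proj 𝒜).Opens} (s : Γ(Proj 𝒜, U)) (x : U) :
    ev 𝒜 (secDer 𝒜 D hD U s) x = hlDer 𝒜 D hD _ (ev 𝒜 s x) := rfl

/-- the vector field on `Proj` given by a derivation of degree zero of the graded ring -/
noncomputable def projVF (D : Derivation k A A) (hD : ∀ n, ∀ a ∈ 𝒜 n, D a ∈ 𝒜 n)
    (W : (Proj 𝒜).Opens) : VectorField (pstr 𝒜) W where
  D U _ s := secDer 𝒜 D hD U s
  map_add U _ a b := by
    apply ev_ext
    intro x
    rw [ev_secDer, ev_add, ev_add, hlDer_add, ev_secDer, ev_secDer]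
  leibniz U _ a b := by
    apply ev_ext
    intro x
    rw [ev_secDer, ev_mul, ev_add, hlDer_mul, ev_mul, ev_mul, ev_secDer, ev_secDer]
  map_const U _ c := by
    apply ev_ext
    intro x
    rw [ev_secDer, ev_const, hlDer_const]
    rfl
  map_res U _ V hV a := by
    apply ev_ext
    intro x
    rw [ev_secDer, ev_res, ev_res, ev_secDer]

lemma mk_eq_mk {P : Submonoid A} (c c' : HomogeneousLocalization.NumDenSameDeg 𝒜 P)
    (h : (c'.den : A) * c.num = c.den * c'.num) :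
    HomogeneousLocalization.mk c = HomogeneousLocalization.mk c' := by
  apply HomogeneousLocalization.val_injective
  rw [HomogeneousLocalization.val_mk, HomogeneousLocalization.val_mk,
    Localization.mk_eq_mk_iff, Localization.r_iff_exists]
  exact ⟨1, by simpa using h⟩

variable {𝒜}

set_option backward.isDefEq.respectTransparency.types false in
/-- The function `a / b` on an open where `b` does not vanish. -/
noncomputable def mkSec {n : ℕ} {a b : A} (ha : a ∈ 𝒜 n) (hb : b ∈ 𝒜 n) (U : (Proj 𝒜).Opens)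
    (h : ∀ x : U, b ∉ x.1.asHomogeneousIdeal) : Γ(Proj 𝒜, U) :=
  ⟨fun x => HomogeneousLocalization.mk ⟨n, ⟨a, ha⟩, ⟨b, hb⟩, h x⟩, fun x =>
    ⟨U, x.2, 𝟙 _, n, ⟨a, ha⟩, ⟨b, hb⟩, fun y => h y, fun _ => rfl⟩⟩

set_option backward.isDefEq.respectTransparency.types false in
lemma ev_mkSec {n : ℕ} {a b : A} (ha : a ∈ 𝒜 n) (hb : b ∈ 𝒜 n) (U : (Proj 𝒜).Opens)
    (h : ∀ x : U, b ∉ x.1.asHomogeneousIdeal) (x : U) :
    ev 𝒜 (mkSec ha hb U h) x = HomogeneousLocalization.mk ⟨n, ⟨a, ha⟩, ⟨b, hb⟩, h x⟩ := rfl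

lemma res_mkSec {n : ℕ} {a b : A} (ha : a ∈ 𝒜 n) (hb : b ∈ 𝒜 n) {U V : (Proj 𝒜).Opens}
    (h : ∀ x : U, b ∉ x.1.asHomogeneousIdeal) (hV : V ≤ U) :
    res hV (mkSec ha hb U h) = mkSec ha hb V (fun x => h ⟨x.1, hV x.2⟩) := rfl

lemma mkSec_mul {n m : ℕ} {a b c d : A} (ha : a ∈ 𝒜 n) (hb : b ∈ 𝒜 n) (hc : c ∈ 𝒜 m)
    (hd : d ∈ 𝒜 m) (U : (Proj 𝒜).Opens)
    (h : ∀ x : U, b ∉ x.1.asHomogeneousIdeal) (h' : ∀ x : U, d ∉ x.1.asHomogeneousIdeal)
    {l : ℕ} {e f : A} (he : e ∈ 𝒜 l) (hf : f ∈ 𝒜 l) (h'' : ∀ x : U, f ∉ x.1.asHomogeneousIdeal)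
    (heq : f * (a * c) = (b * d) * e) :
    mkSec ha hb U h * mkSec hc hd U h' = mkSec he hf U h'' := by
  apply ev_ext
  intro x
  rw [ev_mul, ev_mkSec, ev_mkSec, ev_mkSec, ← HomogeneousLocalization.mk_mul]
  apply mk_eq_mk
  exact heq

lemma mkSec_one {n : ℕ} {a : A} (ha : a ∈ 𝒜 n) (U : (Proj 𝒜).Opens)
    (h : ∀ x : U, a ∉ x.1.asHomogeneousIdeal) : mkSec ha ha U h = 1 := by
  apply ev_ext
  intro x
  rw [ev_mkSec]
  have : ev 𝒜 (1 : Γ(Proj 𝒜, U)) x = HomogeneousLocalization.mk 1 := rfl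
  rw [this]
  apply mk_eq_mk
  simp

lemma awayToSection_mk {d : ℕ} {f : A} (hf : f ∈ 𝒜 d) (n : ℕ) (x : A) (hx : x ∈ 𝒜 (n • d))
    (h : ∀ y : Proj.basicOpen 𝒜 f, f ^ n ∉ y.1.asHomogeneousIdeal) :
    (Proj.awayToSection 𝒜 f).hom (HomogeneousLocalization.Away.mk 𝒜 hf n x hx) =
      mkSec hx (SetLike.pow_mem_graded n hf) (Proj.basicOpen 𝒜 f) h := rfl

lemma awayToSection_const (f : A) (c : k) :
    (Proj.awayToSection 𝒜 f).hom (HomogeneousLocalization.fromZeroRingHom 𝒜 _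
      (algebraMap k (𝒜 0) c)) = const (pstr 𝒜) (Proj.basicOpen 𝒜 f) c := by
  apply ev_ext
  intro x
  rw [ev_const]
  rfl

lemma bijective_awayToSection {d : ℕ} {f : A} (hf : f ∈ 𝒜 d) (hd : 0 < d) :
    Function.Bijective (Proj.awayToSection 𝒜 f).hom := by
  have h := Proj.basicOpenIsoAway_hom 𝒜 f hf hd
  have h2 : Function.Bijective (Proj.basicOpenIsoAway 𝒜 f hf hd).hom.hom :=
    (Proj.basicOpenIsoAway 𝒜 f hf hd).commRingCatIsoToRingEquiv.bijective
  rw [h] at h2
  exact h2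

lemma mkSec_congr {n m : ℕ} {a b c d : A} (ha : a ∈ 𝒜 n) (hb : b ∈ 𝒜 n) (hc : c ∈ 𝒜 m)
    (hd : d ∈ 𝒜 m) (U : (Proj 𝒜).Opens)
    (h : ∀ x : U, b ∉ x.1.asHomogeneousIdeal) (h' : ∀ x : U, d ∉ x.1.asHomogeneousIdeal)
    (heq : d * a = b * c) : mkSec ha hb U h = mkSec hc hd U h' := by
  apply ev_ext
  intro x
  rw [ev_mkSec, ev_mkSec]
  apply mk_eq_mk
  exact heq

lemma secDer_mkSec (D : Derivation k A A) (hD : ∀ n, ∀ a ∈ 𝒜 n, D a ∈ 𝒜 n)
    {n : ℕ} {a b : A} (ha : a ∈ 𝒜 n) (hb : b ∈ 𝒜 n) (U : (Proj 𝒜).Opens)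
    (h : ∀ x : U, b ∉ x.1.asHomogeneousIdeal) (hDb : D b = 0) :
    secDer 𝒜 D hD U (mkSec ha hb U h) = mkSec (hD n a ha) hb U h := by
  apply ev_ext
  intro x
  rw [ev_secDer, ev_mkSec, ev_mkSec, hlDer_mk]
  apply mk_eq_mk
  change b * (D a * b - a * D b) = (b * b) * D a
  rw [hDb]
  ring

lemma secDer_mkSec_zero (D : Derivation k A A) (hD : ∀ n, ∀ a ∈ 𝒜 n, D a ∈ 𝒜 n)
    {n : ℕ} {a b : A} (ha : a ∈ 𝒜 n) (hb : b ∈ 𝒜 n) (U : (Proj 𝒜).Opens)
    (h : ∀ x : U, b ∉ x.1.asHomogeneousIdeal) (hDa : D a = 0) (hDb : D b = 0) :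
    secDer 𝒜 D hD U (mkSec ha hb U h) = 0 := by
  rw [secDer_mkSec D hD ha hb U h hDb]
  apply ev_ext
  intro x
  rw [ev_mkSec]
  apply HomogeneousLocalization.mk_eq_zero_of_num
  exact Subtype.ext hDa

lemma secDer_smul (D : Derivation k A A) (y z : A)
    (hy : ∀ n, ∀ a ∈ 𝒜 n, (y • D) a ∈ 𝒜 n) (hz : ∀ n, ∀ a ∈ 𝒜 n, (z • D) a ∈ 𝒜 n)
    {m : ℕ} (hym : y ∈ 𝒜 m) (hzm : z ∈ 𝒜 m) (U : (Proj 𝒜).Opens)
    (h : ∀ x : U, z ∉ x.1.asHomogeneousIdeal) (a : Γ(Proj 𝒜, U)) :
    secDer 𝒜 (y • D) hy U a = mkSec hym hzm U h * secDer 𝒜 (z • D) hz U a := by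
  apply ev_ext
  intro x
  rw [ev_mul, ev_secDer, ev_secDer, ev_mkSec]
  obtain ⟨c, hc⟩ := HomogeneousLocalization.mk_surjective (ev 𝒜 a x)
  rw [← hc, hlDer_mk, hlDer_mk, ← HomogeneousLocalization.mk_mul]
  apply mk_eq_mk
  change (z * ((c.den : A) * c.den)) * ((y • D) c.num * c.den - c.num * (y • D) c.den) =
    (((c.den : A) * c.den)) * (y * ((z • D) c.num * c.den - c.num * (z • D) c.den))
  simp only [Derivation.smul_apply, smul_eq_mul]
  ring

set_option backward.isDefEq.respectTransparency.types false in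
lemma isUnit_ev_iff {U : (Proj 𝒜).Opens} (s : Γ(Proj 𝒜, U)) (x : U) :
    IsUnit (ev 𝒜 s x) ↔ x.1 ∈ (Proj 𝒜).basicOpen s := by
  rw [Scheme.mem_basicOpen (hx := x.2)]
  have h := Proj.stalkIso'_germ 𝒜 U x.1 x.2 s
  have h2 : IsUnit ((Proj.stalkIso' 𝒜 x.1)
      ((ProjectiveSpectrum.Proj.structureSheaf 𝒜).presheaf.germ U x.1 x.2 s)) ↔
      IsUnit ((ProjectiveSpectrum.Proj.structureSheaf 𝒜).presheaf.germ U x.1 x.2 s) :=
    MulEquiv.isUnit_map _
  rw [h] at h2
  exact h2

lemma notMem_of_isUnit_mk (𝔭 : Ideal A) [𝔭.IsPrime]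
    (c : HomogeneousLocalization.NumDenSameDeg 𝒜 𝔭.primeCompl)
    (h : IsUnit (HomogeneousLocalization.mk c)) : (c.num : A) ∉ 𝔭 := by
  have h2 := (HomogeneousLocalization.isUnit_iff_isUnit_val 𝒜 𝔭 _).2 h
  rw [HomogeneousLocalization.val_mk, Localization.mk_eq_mk',
    IsLocalization.AtPrime.isUnit_mk'_iff (Localization 𝔭.primeCompl) 𝔭] at h2
  exact h2

set_option backward.isDefEq.respectTransparency.types false in
lemma basicOpen_mkSec {n : ℕ} {a b : A} (ha : a ∈ 𝒜 n) (hb : b ∈ 𝒜 n) (U : (Proj 𝒜).Opens)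
    (h : ∀ x : U, b ∉ x.1.asHomogeneousIdeal) :
    (Proj 𝒜).basicOpen (mkSec ha hb U h) = U ⊓ Proj.basicOpen 𝒜 a := by
  ext x
  constructor
  · intro hx
    have hxU : x ∈ U := (Proj 𝒜).basicOpen_le _ hx
    refine ⟨hxU, ?_⟩
    have h1 := (isUnit_ev_iff (mkSec ha hb U h) ⟨x, hxU⟩).2 hx
    rw [ev_mkSec] at h1
    exact notMem_of_isUnit_mk _ _ h1
  · rintro ⟨hxU, hxa⟩
    refine (isUnit_ev_iff (mkSec ha hb U h) ⟨x, hxU⟩).1 ?_
    rw [ev_mkSec]
    refine IsUnit.of_mul_eq_one (HomogeneousLocalization.mk ⟨n, ⟨b, hb⟩, ⟨a, ha⟩, hxa⟩) ?_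
    rw [← HomogeneousLocalization.mk_mul, ← HomogeneousLocalization.mk_one]
    apply mk_eq_mk
    simp
    ring

end vf

end Pool.Agent.Q79.AT
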