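import Pool.Agent.Helper198.SchO
import Pool.Agent.Helper198.SchP
import Pool.Agent.Q79.AT.ProjDer

open MvPolynomial AlgebraicGeometry CategoryTheory TopologicalSpace
open Pool.Agent.Helper198.Sch

namespace Pool.Agent.Q79.AT

attribute [local instance] MvPolynomial.gradedAlgebra

section der

variable {σ : Type} {k : Type} [Field k] (J : HI σ k)

/-- the ideal is stable under the partial derivative -/
def Stable (j : σ) : Prop := ∀ f ∈ J.toIdeal, pderiv j f ∈ J.toIdeal

variable {J}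

/-- the induced derivation of the quotient -/
noncomputable def qder {j : σ} (h : Stable J j) :
    Derivation k (MvPolynomial σ k ⧸ J.toIdeal) (MvPolynomial σ k ⧸ J.toIdeal) :=
  Derivation.liftOfSurjective (f := Ideal.Quotient.mkₐ k J.toIdeal)
    (Ideal.Quotient.mkₐ_surjective k J.toIdeal) (d := pderiv j) (fun x hx => by
      have h1 : x ∈ J.toIdeal := Ideal.Quotient.eq_zero_iff_mem.1 hx
      exact Ideal.Quotient.eq_zero_iff_mem.2 (h x h1))

lemma qder_mk {j : σ} (h : Stable J j) (f : MvPolynomial σ k) :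
    qder h (Ideal.Quotient.mk J.toIdeal f) = Ideal.Quotient.mk J.toIdeal (pderiv j f) :=
  Derivation.liftOfSurjective_apply (f := Ideal.Quotient.mkₐ k J.toIdeal)
    (Ideal.Quotient.mkₐ_surjective k J.toIdeal) (fun x hx => by
      have h1 : x ∈ J.toIdeal := Ideal.Quotient.eq_zero_iff_mem.1 hx
      exact Ideal.Quotient.eq_zero_iff_mem.2 (h x h1)) f

/-- the derivation `x_m ∂_j` of the homogeneous coordinate ring -/
noncomputable def Ed (m : σ) {j : σ} (h : Stable J j) :
    Derivation k (MvPolynomial σ k ⧸ J.toIdeal) (MvPolynomial σ k ⧸ J.toIdeal) :=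
  gen J m • qder h

lemma Ed_apply (m : σ) {j : σ} (h : Stable J j) (f : MvPolynomial σ k) :
    Ed m h (Ideal.Quotient.mk J.toIdeal f) = Ideal.Quotient.mk J.toIdeal (X m * pderiv j f) := by
  rw [Ed, Derivation.smul_apply, qder_mk, smul_eq_mul, gen, map_mul]

lemma Ed_mem (m : σ) {j : σ} (h : Stable J j) :
    ∀ n, ∀ a ∈ qgrad J.toIdeal n, Ed m h a ∈ qgrad J.toIdeal n := by
  intro n a ha
  obtain ⟨f, hf, rfl⟩ := mem_qgrad.1 ha
  rw [Ed_apply]
  apply mk_mem_qgrad
  rcases Nat.eq_zero_or_pos n with h0 | hpos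
  · subst h0
    have h1 := totalDegree_eq_zero_iff_eq_C.1 (Nat.le_zero.1 (hf.totalDegree_le))
    rw [h1, pderiv_C, mul_zero]
    exact isHomogeneous_zero _ _ _
  · have h1 := (isHomogeneous_X k m).mul (hf.pderiv (i := j))
    have h2 : 1 + (n - 1) = n := by omega
    rw [h2] at h1
    exact h1

lemma Ed_gen_self (m : σ) {j : σ} (h : Stable J j) : Ed m h (gen J j) = gen J m := by
  classical
  rw [gen, Ed_apply, pderiv_X_self, mul_one]
  rfl

lemma Ed_gen_ne (m : σ) {j : σ} (h : Stable J j) {a : σ} (ha : a ≠ j) :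
    Ed m h (gen J a) = 0 := by
  classical
  rw [gen, Ed_apply, pderiv_X_of_ne ha, mul_zero, map_zero]

/-- the vector field `x_m ∂_j` -/
noncomputable def E (m : σ) {j : σ} (h : Stable J j) (W : (V J).Opens) :
    VectorField (V.str J) W :=
  projVF (qgrad J.toIdeal) (Ed m h) (Ed_mem m h) W

/-- the function `x_a / x_c` on an open contained in the chart of `c` -/
noncomputable def fr (J : HI σ k) (c a : σ) (U : (V J).Opens) (hU : U ≤ V.D J c) : Γ(V J, U) :=
  mkSec (𝒜 := qgrad J.toIdeal) (gen_mem J a) (gen_mem J c) U (fun x => hU x.2)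

lemma res_fr (c a : σ) {U U' : (V J).Opens} (hU : U ≤ V.D J c) (h : U' ≤ U) :
    res h (fr J c a U hU) = fr J c a U' (h.trans hU) := rfl

lemma E_fr_self (m : σ) {j : σ} (h : Stable J j) (W U : (V J).Opens) (hW : U ≤ W) (c : σ)
    (hU : U ≤ V.D J c) (hc : c ≠ j) :
    (E m h W).D U hW (fr J c j U hU) = fr J c m U hU := by
  refine (secDer_mkSec (𝒜 := qgrad J.toIdeal) (Ed m h) (Ed_mem m h) (gen_mem J j)
    (gen_mem J c) U _ (Ed_gen_ne m h hc)).trans ?_
  unfold fr
  congr 1
  exact Ed_gen_self m h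

lemma E_fr_ne (m : σ) {j : σ} (h : Stable J j) (W U : (V J).Opens) (hW : U ≤ W) (c a : σ)
    (hU : U ≤ V.D J c) (hc : c ≠ j) (ha : a ≠ j) :
    (E m h W).D U hW (fr J c a U hU) = 0 :=
  secDer_mkSec_zero (𝒜 := qgrad J.toIdeal) (Ed m h) (Ed_mem m h) (gen_mem J a)
    (gen_mem J c) U _ (Ed_gen_ne m h ha) (Ed_gen_ne m h hc)

lemma fr_mul (c a b : σ) (U : (V J).Opens) (h1 : U ≤ V.D J c) (h2 : U ≤ V.D J a) :
    fr J c a U h1 * fr J a b U h2 = fr J c b U h1 := by
  apply mkSec_mul
  ring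

lemma fr_self (c : σ) (U : (V J).Opens) (h : U ≤ V.D J c) : fr J c c U h = 1 :=
  mkSec_one _ _ _

end der

section linebundle

variable {σ : Type} {k : Type} [Field k] (J : HI σ k)

/-- The line bundle `O(1)`, with local frame `x_i` on the chart of `i`. -/
noncomputable def O1 : LineBundle (V J) where
  ι := σ
  U := V.D J
  cover := by
    rw [eq_top_iff]
    intro x _
    obtain ⟨c, hc⟩ := V.exists_mem_D J x
    exact Opens.mem_iSup.2 ⟨c, hc⟩
  g i j := fr J i j _ inf_le_left
  isUnit i j := IsUnit.of_mul_eq_one (fr J j i _ inf_le_right) (by rw [fr_mul, fr_self])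
  cocycle i j l W hij hjl hil := by
    rw [res_fr, res_fr, res_fr, fr_mul]

/-- The section `x_j` of `O(1)`. -/
noncomputable def sec1 (j : σ) : (O1 J).Section 1 where
  s i := fr J i j (V.D J i) le_rfl
  compat a b := by
    rw [pow_one]
    exact (fr_mul (J := J) a b j _ inf_le_left inf_le_right).symm

lemma nonvanishing_sec1 (j : σ) : (sec1 J j).nonvanishing = V.D J j := by
  unfold LineBundle.Section.nonvanishing
  have h : ∀ i : σ, (V J).basicOpen ((sec1 J j).s i) = V.D J i ⊓ V.D J j := fun i =>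
    basicOpen_mkSec (𝒜 := qgrad J.toIdeal) _ _ _ _
  apply le_antisymm
  · apply iSup_le
    intro i
    rw [h i]
    exact inf_le_right
  · intro x hx
    refine Opens.mem_iSup.2 ⟨j, ?_⟩
    rw [h j]
    exact ⟨hx, hx⟩

lemma isAffineOpen_D (j : σ) : IsAffineOpen (V.D J j) :=
  Proj.isAffineOpen_basicOpen (qgrad J.toIdeal) (gen J j) (gen_mem J j) one_pos

lemma compactSpace [Finite σ] : CompactSpace (V J) := by
  refine ⟨?_⟩
  have h : (Set.univ : Set (V J)) = ⋃ i : σ, (V.D J i : Set (V J)) := by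
    ext x
    obtain ⟨c, hc⟩ := V.exists_mem_D J x
    simp only [Set.mem_univ, Set.mem_iUnion, true_iff]
    exact ⟨c, hc⟩
  rw [h]
  exact isCompact_iUnion (fun i => (isAffineOpen_D J i).isCompact)

theorem isAmple_O1 [Finite σ] : (O1 J).IsAmple := by
  refine ⟨compactSpace J, fun x => ?_⟩
  obtain ⟨c, hc⟩ := V.exists_mem_D J x
  refine ⟨1, sec1 J c, one_pos, ?_, ?_⟩
  · rw [nonvanishing_sec1]
    exact hc
  · rw [nonvanishing_sec1]
    exact isAffineOpen_D J c

variable {J}

lemma hlDer_smul (m i : σ) {j : σ} (h : Stable J j) {U : (V J).Opens} (h1 : U ≤ V.D J i)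
    (W W' : (V J).Opens) (hW : U ≤ W) (hW' : U ≤ W') (a : Γ(V J, U)) :
    (E m h W).D U hW a = fr J i m U h1 * (E i h W').D U hW' a := by
  exact secDer_smul (𝒜 := qgrad J.toIdeal) (qder h) (gen J m) (gen J i) (Ed_mem m h) (Ed_mem i h)
    (gen_mem J m) (gen_mem J i) U (fun x => h1 x.2) a

/-- The map `O(1) ⟶ T_X` sending the section `x_i` to the vector field `x_i ∂_j`. -/
noncomputable def tmap {j : σ} (h : Stable J j) : TangentMap (V.str J) (O1 J) where
  v i := E (i : σ) h (V.D J i)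
  compat i m _ hW a := hlDer_smul (J := J) m i h (hW.trans inf_le_left) _ _ _ _ a

end linebundle

end Pool.Agent.Q79.AT
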