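import Pool.Agent.Helper165.StdSmooth
import Pool.Agent.Q79.AT.VJ
import Pool.Agent.Q79.AT.Alg

open MvPolynomial AlgebraicGeometry CategoryTheory TopologicalSpace
open Pool.Agent.Helper198.Sch

namespace Pool.Agent.Q79.AT

attribute [local instance] MvPolynomial.gradedAlgebra

section quadric

variable (k : Type) [Field k]

/-- the quadratic form `x0 x1 + x2 x3 + x4 ^ 2` -/
noncomputable def qq : MvPolynomial (Fin 5) k := X 0 * X 1 + X 2 * X 3 + X 4 ^ 2

lemma qq_hom : (qq k).IsHomogeneous 2 :=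
  (((isHomogeneous_X k _).mul (isHomogeneous_X k _)).add
    ((isHomogeneous_X k _).mul (isHomogeneous_X k _))).add ((isHomogeneous_X k _).pow 2)

/-- the ideal of the quadric -/
noncomputable def JQ : HI (Fin 5) k :=
  HI.ofSet {qq k} (fun f hf => ⟨2, by rw [Set.mem_singleton_iff.1 hf]; exact qq_hom k⟩)

lemma qq_mem : qq k ∈ (JQ k).toIdeal := mem_ofSet rfl

variable {k}

lemma aeval_qq {E : Type*} [CommRing E] [Algebra k E] (u : Fin 5 → E) :
    aeval u (qq k) = u 0 * u 1 + u 2 * u 3 + u 4 ^ 2 := by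
  simp [qq]

lemma aeval_JQ {E : Type*} [CommRing E] [Algebra k E] (u : Fin 5 → E)
    (h : u 0 * u 1 + u 2 * u 3 + u 4 ^ 2 = 0) : ∀ f ∈ (JQ k).toIdeal, aeval u f = 0 :=
  aeval_ofSet u (fun f hf => by rw [Set.mem_singleton_iff.1 hf, aeval_qq, h])

lemma frac_rel (c : Fin 5) : frac (JQ k) c 0 * frac (JQ k) c 1 + frac (JQ k) c 2 * frac (JQ k) c 3
    + frac (JQ k) c 4 ^ 2 = 0 := by
  rw [← aeval_qq (k := k)]
  exact aeval_frac_eq_zero _ _ _ (qq_mem k)

lemma gen_rel : gen (JQ k) 0 * gen (JQ k) 1 + gen (JQ k) 2 * gen (JQ k) 3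
    + gen (JQ k) 4 ^ 2 = 0 := by
  have h : Ideal.Quotient.mk (JQ k).toIdeal (qq k) = 0 := Ideal.Quotient.eq_zero_iff_mem.2 (qq_mem k)
  rw [qq, map_add, map_add, map_mul, map_mul, map_pow] at h
  exact h

/-- combinatorial data of a chart -/
structure Q4 where
  /-- the chart -/
  c : Fin 5
  /-- the opposite coordinate -/
  c' : Fin 5
  /-- first coordinate -/
  d : Fin 5
  /-- second coordinate -/
  d' : Fin 5
  eq : ({(c, c'), (c', c), (d, d'), (d', d)} : Finset (Fin 5 × Fin 5)) =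
    {(0, 1), (1, 0), (2, 3), (3, 2)}
  cases : ∀ a, a = c ∨ a = c' ∨ a = d ∨ a = d' ∨ a = 4
  hc' : c' ≠ c
  hd : d ≠ c
  hd' : d' ≠ c
  h4 : 4 ≠ c
  hdc' : d ≠ c'
  hd'c' : d' ≠ c'
  h4c' : 4 ≠ c'
  hdd' : d' ≠ d
  h4d : 4 ≠ d
  h4d' : 4 ≠ d'
  rel : (c = 0 ∧ c' = 1 ∧ d = 2 ∧ d' = 3) ∨ (c = 1 ∧ c' = 0 ∧ d = 2 ∧ d' = 3) ∨
    (c = 2 ∧ c' = 3 ∧ d = 0 ∧ d' = 1) ∨ (c = 3 ∧ c' = 2 ∧ d = 0 ∧ d' = 1)

lemma Q4.sum (t : Q4) {E : Type*} [CommRing E] (u : Fin 5 → E) :
    u 0 * u 1 + u 2 * u 3 = u t.c * u t.c' + u t.d * u t.d' := by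
  rcases t.rel with ⟨h1, h2, h3, h4⟩ | ⟨h1, h2, h3, h4⟩ | ⟨h1, h2, h3, h4⟩ | ⟨h1, h2, h3, h4⟩ <;>
  rw [h1, h2, h3, h4] <;> ring

/-- the four charts -/
def ch4 : Fin 4 → Q4
  | 0 => ⟨0, 1, 2, 3, by decide, by decide, by decide, by decide, by decide, by decide, by decide,
      by decide, by decide, by decide, by decide, by decide, by decide⟩
  | 1 => ⟨1, 0, 2, 3, by decide, by decide, by decide, by decide, by decide, by decide, by decide,
      by decide, by decide, by decide, by decide, by decide, by decide⟩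
  | 2 => ⟨2, 3, 0, 1, by decide, by decide, by decide, by decide, by decide, by decide, by decide,
      by decide, by decide, by decide, by decide, by decide, by decide⟩
  | 3 => ⟨3, 2, 0, 1, by decide, by decide, by decide, by decide, by decide, by decide, by decide,
      by decide, by decide, by decide, by decide, by decide, by decide⟩

section chart

variable (t : Q4)

/-- the coordinates on a chart -/
noncomputable def uQ (k : Type) [Field k] : Fin 5 → MvPolynomial (Fin 3) k := fun a =>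
  if a = t.c then 1 else if a = t.c' then -GG k else if a = t.d then X 0
  else if a = t.d' then X 1 else X 2

lemma uQ_c : uQ t k t.c = 1 := by simp [uQ]
lemma uQ_c' : uQ t k t.c' = -GG k := by simp [uQ, t.hc']
lemma uQ_d : uQ t k t.d = X 0 := by simp [uQ, t.hd, t.hdc']
lemma uQ_d' : uQ t k t.d' = X 1 := by simp [uQ, t.hd', t.hd'c', t.hdd']
lemma uQ_4 : uQ t k 4 = X 2 := by simp [uQ, t.h4, t.h4c', t.h4d, t.h4d']

lemma uQ_rel : uQ t k 0 * uQ t k 1 + uQ t k 2 * uQ t k 3 + uQ t k 4 ^ 2 = 0 := by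
  rw [t.sum, uQ_c, uQ_c', uQ_d, uQ_d', uQ_4, GG]
  ring

/-- chart iso, forward. -/
noncomputable def chQ_to (k : Type) [Field k] : Ch (JQ k) t.c →ₐ[k] MvPolynomial (Fin 3) k :=
  chLift (JQ k) t.c (uQ t k) (uQ_c t) (aeval_JQ _ (uQ_rel t))

/-- chart iso, backward. -/
noncomputable def chQ_from (k : Type) [Field k] : MvPolynomial (Fin 3) k →ₐ[k] Ch (JQ k) t.c :=
  aeval ![frac (JQ k) t.c t.d, frac (JQ k) t.c t.d', frac (JQ k) t.c 4]

lemma chQ_from_0 : chQ_from t k (X 0) = frac (JQ k) t.c t.d := by simp [chQ_from]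
lemma chQ_from_1 : chQ_from t k (X 1) = frac (JQ k) t.c t.d' := by simp [chQ_from]
lemma chQ_from_2 : chQ_from t k (X 2) = frac (JQ k) t.c 4 := by simp [chQ_from]

lemma frac_c' : frac (JQ k) t.c t.c' =
    -(frac (JQ k) t.c t.d * frac (JQ k) t.c t.d' + frac (JQ k) t.c 4 ^ 2) := by
  have h := frac_rel (k := k) t.c
  rw [t.sum, frac_self] at h
  linear_combination h

/-- the chart iso. -/
noncomputable def chQ_equiv (k : Type) [Field k] : Ch (JQ k) t.c ≃ₐ[k] MvPolynomial (Fin 3) k :=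
  AlgEquiv.ofAlgHom (chQ_to t k) (chQ_from t k)
    (by
      apply MvPolynomial.algHom_ext
      intro s
      rw [AlgHom.comp_apply, AlgHom.id_apply]
      fin_cases s
      · change chQ_to t k (chQ_from t k (X 0)) = X 0
        rw [chQ_from_0, chQ_to, chLift_frac, uQ_d]
      · change chQ_to t k (chQ_from t k (X 1)) = X 1
        rw [chQ_from_1, chQ_to, chLift_frac, uQ_d']
      · change chQ_to t k (chQ_from t k (X 2)) = X 2
        rw [chQ_from_2, chQ_to, chLift_frac, uQ_4])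
    (by
      apply ch_algHom_ext
      intro a
      rw [AlgHom.comp_apply, AlgHom.id_apply, chQ_to, chLift_frac]
      rcases t.cases a with rfl | rfl | rfl | rfl | rfl
      · rw [uQ_c, map_one, frac_self]
      · rw [uQ_c', map_neg, GG, map_add, map_mul, map_pow, chQ_from_0, chQ_from_1, chQ_from_2,
          frac_c']
      · rw [uQ_d, chQ_from_0]
      · rw [uQ_d', chQ_from_1]
      · rw [uQ_4, chQ_from_2])

lemma chQ_equiv_frac (a : Fin 5) : chQ_equiv t k (frac (JQ k) t.c a) = uQ t k a :=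
  chLift_frac (JQ k) t.c (uQ t k) (uQ_c t) (aeval_JQ _ (uQ_rel t)) a

instance ch_isDomain : IsDomain (Ch (JQ k) t.c) :=
  (chQ_equiv t k).toRingEquiv.toMulEquiv.isDomain _

end chart

lemma exists_chart (x : V (JQ k)) : ∃ i : Fin 4, x ∈ V.D (JQ k) (ch4 i).c := by
  by_contra hcon
  push Not at hcon
  have h0 := hcon 0
  have h1 := hcon 1
  have h2 := hcon 2
  have h3 := hcon 3
  change x ∉ V.D (JQ k) 0 at h0
  change x ∉ V.D (JQ k) 1 at h1
  change x ∉ V.D (JQ k) 2 at h2
  change x ∉ V.D (JQ k) 3 at h3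
  rw [V.mem_D_iff, not_not] at h0 h1 h2 h3
  obtain ⟨c, hc⟩ := V.exists_mem_D (JQ k) x
  rw [V.mem_D_iff] at hc
  have h4 : gen (JQ k) 4 ∈ ProjectiveSpectrum.asHomogeneousIdeal
      (𝒜 := qgrad (JQ k).toIdeal) x := by
    have hp : (ProjectiveSpectrum.asHomogeneousIdeal
      (𝒜 := qgrad (JQ k).toIdeal) x).toIdeal.IsPrime := ProjectiveSpectrum.isPrime x
    have h5 : gen (JQ k) 4 ^ 2 ∈ (ProjectiveSpectrum.asHomogeneousIdeal
      (𝒜 := qgrad (JQ k).toIdeal) x).toIdeal := by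
      have e : gen (JQ k) 4 ^ 2 = -(gen (JQ k) 1 * gen (JQ k) 0 + gen (JQ k) 3 * gen (JQ k) 2) := by
        linear_combination gen_rel (k := k)
      rw [e]
      exact neg_mem (add_mem (Ideal.mul_mem_left _ _ h0) (Ideal.mul_mem_left _ _ h2))
    exact hp.mem_of_pow_mem 2 h5
  have : ∀ c : Fin 5, gen (JQ k) c ∈ ProjectiveSpectrum.asHomogeneousIdeal
      (𝒜 := qgrad (JQ k).toIdeal) x := by
    intro c
    fin_cases c
    · exact h0
    · exact h1
    · exact h2
    · exact h3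
    · exact h4
  exact hc (this c)

lemma GG_ne_zero : GG k ≠ 0 := by
  intro h0
  have := congrArg (coeff (Finsupp.single 2 2)) h0
  simp [GG, coeff_X_pow, MvPolynomial.coeff_mul_X'] at this

theorem isIntegral_VQ : IsIntegral (V (JQ k)) := by
  let p0 : Spec (.of (Ch (JQ k) (ch4 0).c)) := (⟨⊥, Ideal.isPrime_bot⟩ : PrimeSpectrum _)
  apply V.isIntegral_of_charts (JQ k) (fun i => (ch4 i).c) exists_chart
    (fun i => ch_isDomain (ch4 i)) (V.chart (JQ k) (ch4 0).c p0)
  intro i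
  rw [V.chart_mem_D]
  change ¬ (frac (JQ k) (ch4 0).c (ch4 i).c ∈ (⊥ : Ideal _))
  rw [Ideal.mem_bot]
  intro h
  have h2 := congrArg (chQ_equiv (ch4 0) k) h
  rw [chQ_equiv_frac, map_zero] at h2
  fin_cases i
  · have e : uQ (ch4 0) k (ch4 0).c = 1 := uQ_c _
    rw [show ((ch4 ((fun i => i) ⟨0, by decide⟩)).c) = (ch4 0).c from rfl, e] at h2
    exact one_ne_zero h2
  · have e : uQ (ch4 0) k (ch4 0).c' = -GG k := uQ_c' _
    have h3 : uQ (ch4 0) k (ch4 0).c' = 0 := h2
    rw [e, neg_eq_zero] at h3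
    exact GG_ne_zero h3
  · have e : uQ (ch4 0) k (ch4 0).d = X 0 := uQ_d _
    have h3 : uQ (ch4 0) k (ch4 0).d = 0 := h2
    rw [e] at h3
    exact X_ne_zero _ h3
  · have e : uQ (ch4 0) k (ch4 0).d' = X 1 := uQ_d' _
    have h3 : uQ (ch4 0) k (ch4 0).d' = 0 := h2
    rw [e] at h3
    exact X_ne_zero _ h3

set_option backward.isDefEq.respectTransparency.types false in
theorem smooth_VQ : SmoothOfRelativeDimension 3 (V.str (JQ k)) := by
  apply IsZariskiLocalAtSource.of_openCover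
    (V.coverOf (JQ k) (fun i => (ch4 i).c) exists_chart).openCover
  intro (i : Fin 4)
  change SmoothOfRelativeDimension 3 (V.chart (JQ k) (ch4 i).c ≫ V.str (JQ k))
  rw [V.chart_str, HasRingHomProperty.Spec_iff (P := @SmoothOfRelativeDimension 3)]
  apply RingHom.locally_of
  · exact RingHom.isStandardSmoothOfRelativeDimension_respectsIso
  · have h1 : Algebra.IsStandardSmoothOfRelativeDimension 3 k (MvPolynomial (Fin 3) k) := by
      have := Pool.Agent.Helper165.isStandardSmooth_of_bijective (R := k)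
        (S := MvPolynomial (Fin 3) k) (ι := Fin 3) X (by
          have : (aeval X : MvPolynomial (Fin 3) k →ₐ[k] MvPolynomial (Fin 3) k) =
            AlgHom.id k _ := by
            apply MvPolynomial.algHom_ext
            intro i
            simp
          rw [this]
          exact Function.bijective_id)
      simpa using this
    have h2 : Algebra.IsStandardSmoothOfRelativeDimension 3 k (Ch (JQ k) (ch4 i).c) :=
      Algebra.IsStandardSmoothOfRelativeDimension.of_algEquiv 3 (chQ_equiv (ch4 i) k).symm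
    exact (RingHom.isStandardSmoothOfRelativeDimension_algebraMap 3).2 h2

theorem isProjective_VQ : IsProjective (V.str (JQ k)) :=
  ⟨4, emb (JQ k) (Equiv.refl (Fin 5)),
    (inferInstance : IsClosedImmersion (emb (JQ k) (Equiv.refl (Fin 5)))),
    emb_str (JQ k) (Equiv.refl (Fin 5))⟩

lemma stable_JQ [CharP k 2] : Stable (JQ k) 4 := by
  intro f hf
  have h2 : (2 : MvPolynomial (Fin 5) k) = 0 := by
    have : (2 : k) = 0 := CharP.cast_eq_zero k 2
    rw [← map_ofNat C 2, this, C_0]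
  have hq : pderiv 4 (qq k) = 0 := by
    rw [qq, map_add, map_add, Derivation.leibniz, Derivation.leibniz, pow_two, Derivation.leibniz]
    rw [pderiv_X_self, pderiv_X_of_ne (by decide), pderiv_X_of_ne (by decide),
      pderiv_X_of_ne (by decide), pderiv_X_of_ne (by decide)]
    simp only [smul_eq_mul]
    linear_combination (X 4) * h2
  have h1 : f ∈ Ideal.span {qq k} := hf
  rw [Ideal.mem_span_singleton] at h1
  obtain ⟨g, rfl⟩ := h1
  rw [Derivation.leibniz, hq, smul_zero, add_zero, smul_eq_mul]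
  exact Ideal.mul_mem_right _ _ (qq_mem k)

end quadric

end Pool.Agent.Q79.AT
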